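import Mathlib
import Pool.Agent.W936.WB.Hits

/-!
# Polynomial-time identity testing of formulas of any depth over sparse polynomials

We give a deterministic identity test with polynomially many evaluations (in the number of
variables, the degree, the size and the sparsity `s` of the leaves), for all constants, for
arithmetic formulas of any size and depth, for instance read-once formulas, whose leaves are
polynomials with at most `s` monomials, or oblivious programs of width `w` over such polynomials,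
nested to constant depth; every variable occurs in at most `w` leaves. More generally, for sums of
`κ` products, of any number of factors, of polynomials in `w` such formulas. There is no
restriction on the alternation of sums and products in the formulas. The test is not blackbox: it
first computes an origin `σ` with nonzero coordinates at which no partial derivative of a gate
vanishes, unless it is the zero polynomial, for the formulas and their modifications with one
subformula replaced by `0` or `1` (`Run`). The set of points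
`σ_i p_i^u + ∑_l y_l ∏_{k ≠ i} (z_l - k)` with polynomially many seeds `u, y, z` then hits all
sums of `κ` products.

The proof: the multiplicative part of the points hits sparse polynomials, as `σ` has no coordinate
`0`, and contains the point `σ` itself (`u = 0`), so that no nonzero partial derivative of a gate
belongs to one of the ideals of the generator; therefore the theorem `LFam.trees` on polynomials
in boundedly many formulas (`Pool.Agent.H530R2`) applies over the field of rational functions in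
the parameter `u`. The same argument shows that the search for the next origin succeeds, because a
product of polynomials not vanishing identically on the generator does not vanish identically on
it. The local-to-global principle for the algebraic independence of products
(`Pool.Agent.H626R2.Loc`) gives the sums of products.
-/

namespace Pool.Agent.Results.MP_e2be99_lc.FormulasOverSparse

open MvPolynomial

/-- Formulas in `n` variables: the leaves are polynomials, a gate computes
`c₀ + c₁ a + c₂ b + c₃ a b` from the values `a`, `b` of its arguments (in particular `a + b`,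
`a - b` and `a b`). -/
inductive Formula (n : ℕ) : Type
  | leaf (g : MvPolynomial (Fin n) ℂ) : Formula n
  | gate (c₀ c₁ c₂ c₃ : ℂ) (a b : Formula n) : Formula n

variable {n : ℕ}

/-- the polynomial computed by a formula -/
noncomputable def Formula.value : Formula n → MvPolynomial (Fin n) ℂ
  | .leaf g => g
  | .gate c₀ c₁ c₂ c₃ a b => C c₀ + C c₁ * a.value + C c₂ * b.value + C c₃ * (a.value * b.value)

open Classical in
/-- the number of leaves in which the variable `x` occurs -/
noncomputable def Formula.reads : Formula n → Fin n → ℕ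
  | .leaf g, x => if x ∈ g.vars then 1 else 0
  | .gate _ _ _ _ a b, x => a.reads x + b.reads x

/-- all leaves have the property `L` -/
def Formula.Leaves (L : MvPolynomial (Fin n) ℂ → Prop) : Formula n → Prop
  | .leaf g => L g
  | .gate _ _ _ _ a b => a.Leaves L ∧ b.Leaves L

/-- the number of leaves -/
def Formula.size : Formula n → ℕ
  | .leaf _ => 1
  | .gate _ _ _ _ a b => a.size + b.size

/-- the partial derivatives of the gates with respect to their arguments (as polynomials in the
variables), those of subformulas first -/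
noncomputable def Formula.partials : Formula n → List (MvPolynomial (Fin n) ℂ)
  | .leaf _ => []
  | .gate _ c₁ c₂ c₃ a b => a.partials ++ b.partials ++
      [C c₁ + C c₃ * b.value, C c₂ + C c₃ * a.value]

/-- the formula, and the formulas which arise from it by replacing one subformula by `0` or `1` -/
noncomputable def Formula.holes : Formula n → List (Formula n)
  | .leaf g => [.leaf g, .leaf (C 0), .leaf (C 1)]
  | .gate c₀ c₁ c₂ c₃ a b => [.gate c₀ c₁ c₂ c₃ a b, .leaf (C 0), .leaf (C 1)] ++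
      (a.holes.map (fun a' => .gate c₀ c₁ c₂ c₃ a' b) ++
        b.holes.map (fun b' => .gate c₀ c₁ c₂ c₃ a b'))

/-- the subformulas, and the formulas which arise from them by replacing one subformula by `0` or
`1` -/
noncomputable def Formula.segs : Formula n → List (Formula n)
  | .leaf g => (Formula.leaf g).holes
  | .gate c₀ c₁ c₂ c₃ a b => (Formula.gate c₀ c₁ c₂ c₃ a b).holes ++ (a.segs ++ b.segs)

/-- the polynomials tested one after the other -/
noncomputable def tests (l : List (Formula n)) : List (MvPolynomial (Fin n) ℂ) :=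
  l.flatMap fun E => E.segs.flatMap Formula.partials

/-- `Run S L σ K`: a run of the search, where `S σ` is a finite set of points for every origin `σ`.
It starts at the origin `(1, …, 1)`, and `K` contains the variables. For every polynomial `g` of the
list `L` it looks for a point `p ∈ S σ` at which neither `g` nor one of the polynomials of `K`
(those found to be nonzero so far) vanishes. If there is such a point, it moves to `p` and adds `g`
to `K`, otherwise it goes on with the next polynomial. -/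
inductive Run (S : (Fin n → ℤ) → Finset (Fin n → ℤ)) : List (MvPolynomial (Fin n) ℂ) →
    (Fin n → ℤ) → List (MvPolynomial (Fin n) ℂ) → Prop
  | start : Run S [] (fun _ => 1) (List.ofFn X)
  | skip {L K : List (MvPolynomial (Fin n) ℂ)} {σ : Fin n → ℤ} (g : MvPolynomial (Fin n) ℂ) :
      Run S L σ K → (∀ p ∈ S σ, ∃ h ∈ g :: K, eval (fun i => (p i : ℂ)) h = 0) →
      Run S (L ++ [g]) σ K
  | move {L K : List (MvPolynomial (Fin n) ℂ)} {σ : Fin n → ℤ} (g : MvPolynomial (Fin n) ℂ)
      (p : Fin n → ℤ) : Run S L σ K → p ∈ S σ →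
      (∀ h ∈ g :: K, eval (fun i => (p i : ℂ)) h ≠ 0) → Run S (L ++ [g]) p (g :: K)

/-- The contents of `u` registers after `b` steps. The registers start with the constants `c₀`;
step `b` multiplies the vector of the contents by the matrix `M b`. -/
noncomputable def contents {n u : ℕ} (c₀ : Fin u → ℂ)
    (M : ℕ → Matrix (Fin u) (Fin u) (MvPolynomial (Fin n) ℂ)) : ℕ → Fin u → MvPolynomial (Fin n) ℂ
  | 0 => fun j => C (c₀ j)
  | b + 1 => Matrix.vecMul (contents c₀ M b) (M b)

/-- `Prog w s D f`: the polynomial `f` is computed with depth `D`.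
* Depth `0`: polynomials with at most `s` monomials which are univariate, or in which every
  variable occurs with at most `w` different exponents.
* `program` (depth `D + 1`): a polynomial `P` in the contents of the at most `w` registers of a
  linear program of any length `R`, whose matrices have entries of depth `D`, where every variable
  occurs in at most `w` of the matrices `M 0, …, M (R - 1)`. -/
inductive Prog {n : ℕ} (w s : ℕ) : ℕ → MvPolynomial (Fin n) ℂ → Prop
  | sparse {f : MvPolynomial (Fin n) ℂ} : f.support.card ≤ s →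
      (f.vars.card ≤ 1 ∨ ∀ i, (f.support.image fun a => a i).card ≤ w) → Prog w s 0 f
  | program {D u : ℕ} (c₀ : Fin u → ℂ)
      (M : ℕ → Matrix (Fin u) (Fin u) (MvPolynomial (Fin n) ℂ)) (R : ℕ)
      (P : MvPolynomial (Fin u) ℂ) : u ≤ w →
      (∀ x, ((Finset.range R).filter fun b => ∃ i j, x ∈ (M b i j).vars).card ≤ w) →
      (∀ b i j, Prog w s D (M b i j)) → Prog w s (D + 1) (aeval (contents c₀ M R) P)

/-- a polynomial in `w` formulas of the list `l` -/
def Factor (l : List (Formula n)) (w : ℕ) (g : MvPolynomial (Fin n) ℂ) : Prop :=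
  ∃ (E : Fin w → Formula n) (P : MvPolynomial (Fin w) ℂ),
    (∀ i, E i ∈ l) ∧ g = aeval (fun i => (E i).value) P

/-- a polynomial in finitely many products of any number of members of `Factor l w`, no `κ + 1`
of which are algebraically independent; for instance a sum of `κ` such products -/
def Sums (l : List (Formula n)) (w κ : ℕ) (f : MvPolynomial (Fin n) ℂ) : Prop :=
  ∃ (N : ℕ) (T : Fin N → Multiset (MvPolynomial (Fin n) ℂ)), (∀ i, ∀ g ∈ T i, Factor l w g) ∧
    (∀ u : Fin (κ + 1) → Fin N, ¬ AlgebraicIndependent ℂ (fun a => (T (u a)).prod)) ∧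
    f ∈ Algebra.adjoin ℂ (Set.range fun i => (T i).prod)

/-- `∑_{i ≤ N} (v - 1)^i (u choose i)`, which is equal to `v ^ u` for `u ≤ N` -/
def power (N v u : ℕ) : ℕ := ∑ i ∈ Finset.range (N + 1), (v - 1) ^ i * u.choose i

/-- The point with origin `σ` and seeds `u ∈ ℕ`, `y, z ∈ ℕ^m`: its `i`-th coordinate is
`σ_i * power N p_i u + ∑_l y_l ∏_{k ≠ i} (z_l - k)`, where `p_0 = 2, p_1 = 3, …` are the primes. -/
noncomputable def point (n m N : ℕ) (σ : Fin n → ℤ) (u : ℕ) (y z : Fin m → ℕ) : Fin n → ℤ :=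
  fun i => σ i * (power N (Nat.nth Nat.Prime i) u : ℤ) +
    ∑ l : Fin m, (y l : ℤ) * ∏ k ∈ Finset.univ.erase i, ((z l : ℤ) - ((k : ℕ) : ℤ))

/-- The explicit set of all points with origin `σ` and seeds `u ∈ {0,…,Nd}`, `y ∈ {0,…,d}^m`,
`z ∈ {0,…,nd}^m`. -/
noncomputable def points (n m N d : ℕ) (σ : Fin n → ℤ) : Finset (Fin n → ℤ) :=
  ((Finset.range (N * d + 1)) ×ˢ ((Fintype.piFinset fun _ : Fin m => Finset.range (d + 1)) ×ˢ
    (Fintype.piFinset fun _ : Fin m => Finset.range (n * d + 1)))).image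
    fun uyz => point n m N σ uyz.1 uyz.2.1 uyz.2.2

open Pool.Agent.H530R2 Pool.Agent.W936.WB

open Pool.Agent.W936.RO (up sext ext_inj ext_aeval ext_vars ext_dep ext_adjoin univ_gn sparse_gn)

open Pool.Agent.H626R2.Loc (evG)

/-- the parameter of the classes -/
def bd (w : ℕ) : ℕ → ℕ
  | 0 => 1
  | D + 1 => bd w D + w * w + w

/-- the number of coefficients -/
def nc (w k : ℕ) : ℕ → ℕ
  | 0 => (w + 1) ^ k
  | D + 1 => (k * w) * (w * w + w * w * nc w k D) + w * w

theorem contents_eq {n u : ℕ} (c₀ : Fin u → ℂ)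
    (M : ℕ → Matrix (Fin u) (Fin u) (MvPolynomial (Fin n) ℂ)) (b : ℕ) :
    contents c₀ M b = lin (fun j => C (c₀ j)) M b := by
  induction b with
  | zero => rfl
  | succ b ih => simp only [contents, lin, ih]

theorem prog_mem {n w s D k : ℕ} (𝔎 : Fam (RatFunc ℂ)) (σ : ℕ)
    (h𝔎 : ∀ f : MvPolynomial (Fin n) ℂ, f.support.card ≤ s → sext f ∈ 𝔎.K σ n 1)
    {f : MvPolynomial (Fin n) ℂ} (h : Prog w s D f) :
    sext f ∈ (up 𝔎 D).K σ n (bd w D) ∧
      ∀ A : Finset (Fin n), A.card ≤ k → Gn ((up 𝔎 D).K σ n (bd w D)) A (nc w k D) (sext f) := by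
  classical
  induction h with
  | @sparse f hf hw =>
    refine ⟨h𝔎 f hf, fun A hA => ?_⟩
    rcases hw with hw | hw
    · exact Pool.Agent.W936.RO.Gn.ext (univ_gn hf hw (Nat.one_le_pow _ _ (Nat.succ_pos w))) h𝔎
    · refine Pool.Agent.W936.RO.Gn.ext (sparse_gn hf (fun i => ?_) hA) h𝔎
      refine le_trans (le_of_eq ?_) (hw i)
      congr!
  | @program D u c₀ M R P hu hocc _ ih =>
    have hκ : ∀ x, ((Finset.range R).filter fun b =>
        x ∈ mv ((M b).map (map (algebraMap ℂ (RatFunc ℂ))))).card ≤ w := by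
      intro x
      refine le_trans (Finset.card_le_card (t := (Finset.range R).filter fun b =>
        ∃ i j, x ∈ (M b i j).vars) ?_) (le_trans (le_of_eq ?_) (hocc x))
      · intro b hb
        rw [Finset.mem_filter] at hb ⊢
        refine ⟨hb.1, ?_⟩
        obtain ⟨i, j, hij⟩ := mem_mv.1 hb.2
        rw [Matrix.map_apply] at hij
        exact ⟨i, j, by rwa [ext_vars] at hij⟩
      · congr!
    have huu : u * u ≤ w * w := Nat.mul_le_mul hu hu
    have hc : ∀ i, ∃ y, (fun j => C (algebraMap ℂ (RatFunc ℂ) (c₀ j)) :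
        Fin u → MvPolynomial (Fin n) (RatFunc ℂ)) i = C y := fun i => ⟨_, rfl⟩
    have hbd : 1 ≤ bd w D := by
      clear * -
      induction D with
      | zero => exact le_rfl
      | succ D ih => simp only [bd]; omega
    have hf : sext (aeval (contents c₀ M R) P) ∈
        Algebra.adjoin (RatFunc ℂ) (Set.range (lin (fun j => C (algebraMap ℂ (RatFunc ℂ) (c₀ j)))
          (fun t => (M t).map (map (algebraMap ℂ (RatFunc ℂ)))) R)) := by
      rw [ext_aeval, Algebra.adjoin_range_eq_range_aeval]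
      refine ⟨map (algebraMap ℂ (RatFunc ℂ)) P, ?_⟩
      show aeval _ _ = aeval _ _
      congr 2
      funext i
      rw [contents_eq]
      exact (lin_map c₀ M R i).symm
    have hM : ∀ b i j, ((M b).map (map (algebraMap ℂ (RatFunc ℂ)))) i j ∈
        (up 𝔎 D).K σ n (bd w D) := fun b i j => (ih b i j).1
    constructor
    · exact lin_out (κ := w) hc hM R hκ
        (by simp only [bd]; omega) (by simp only [bd]; omega) (by simp only [bd]; omega) hf
    · intro A hA
      refine (Gn.lin (k := k) (κ := w) (W' := bd w (D + 1)) hc hM R hκ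
        (by simp only [bd]; omega) (by simp only [bd]; omega) (by simp only [bd]; omega)
        (by simp only [bd]; omega) hA (fun b i j => (ih b i j).2 A hA) hf).mono
        (fun g hg => hg) ?_
      simp only [nc]
      exact Nat.add_le_add (Nat.mul_le_mul_left _
        (Nat.add_le_add huu (Nat.mul_le_mul_right _ huu))) huu

/-- the leaves as a class: their coefficients with respect to few variables are generated by few
members of the family -/
def LfD (𝔎 : Fam (RatFunc ℂ)) (σ n w D κ : ℕ) : Set (MvPolynomial (Fin n) (RatFunc ℂ)) :=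
  {g | g ∈ (up 𝔎 D).K σ n (bd w D + (up 𝔎 D).c0) ∧ ∀ A : Finset (Fin n), A.card ≤ κ →
    Gn ((up 𝔎 D).K σ n (bd w D + (up 𝔎 D).c0)) A (nc w κ D) g}

theorem LfD.const {𝔎 : Fam (RatFunc ℂ)} {σ n w D κ : ℕ} (y : RatFunc ℂ) :
    (C y : MvPolynomial (Fin n) (RatFunc ℂ)) ∈ LfD 𝔎 σ n w D κ :=
  ⟨(up 𝔎 D).const (Nat.le_add_left _ _) y, fun _ _ => Gn.supp (Subalgebra.algebraMap_mem _ y)⟩

theorem prog_lf {n w s D κ : ℕ} {𝔎 : Fam (RatFunc ℂ)} {σ : ℕ}
    (h𝔎 : ∀ f : MvPolynomial (Fin n) ℂ, f.support.card ≤ s → sext f ∈ 𝔎.K σ n 1)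
    {g : MvPolynomial (Fin n) ℂ} (h : Prog w s D g) : sext g ∈ LfD 𝔎 σ n w D κ := by
  obtain ⟨h1, h2⟩ := prog_mem (k := κ) 𝔎 σ h𝔎 h
  exact ⟨(up 𝔎 D).mono (Nat.le_add_right _ _) h1, fun A hA =>
    (h2 A hA).mono ((up 𝔎 D).mono (Nat.le_add_right _ _)) le_rfl⟩

/-- translation to the formulas of `Pool.Agent.H530R2` -/
noncomputable def toTr : Formula n → Tr (RatFunc ℂ) n
  | .leaf g => .leaf (sext g)
  | .gate c₀ c₁ c₂ c₃ a b =>
    .gate (C (algebraMap ℂ (RatFunc ℂ) c₀) + C (algebraMap ℂ (RatFunc ℂ) c₁) * X 0 +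
      C (algebraMap ℂ (RatFunc ℂ) c₂) * X 1 + C (algebraMap ℂ (RatFunc ℂ) c₃) * (X 0 * X 1))
      (toTr a) (toTr b)

theorem toTr_val (E : Formula n) : (toTr E).val = sext E.value := by
  induction E with
  | leaf g => rfl
  | gate c₀ c₁ c₂ c₃ a b iha ihb =>
    simp only [toTr, Tr.val, Formula.value, map_add, map_mul, algHom_C, aeval_X, iha, ihb, map_C]
    rfl

theorem toTr_occ (E : Formula n) (x : Fin n) : (toTr E).occ x = E.reads x := by
  induction E with
  | leaf g => simp only [toTr, Tr.occ, Formula.reads, ext_vars]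
  | gate c₀ c₁ c₂ c₃ a b iha ihb => simp only [toTr, Tr.occ, Formula.reads, iha, ihb]

theorem toTr_ml (E : Formula n) : (toTr E).ML := by
  induction E with
  | leaf g => trivial
  | gate c₀ c₁ c₂ c₃ a b iha ihb => exact ⟨iha, ihb, _, _, _, _, rfl⟩


theorem toTr_partials (E : Formula n) : (toTr E).gps = E.partials.map sext := by
  induction E with
  | leaf g => rfl
  | gate c₀ c₁ c₂ c₃ a b iha ihb =>
    simp only [toTr, Tr.gps, Formula.partials, iha, ihb, ML_partial0, ML_partial1, toTr_val,
      List.map_append, List.map_cons, List.map_nil]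
    simp only [map_add, map_mul, map_C]

theorem toTr_holes (E : Formula n) : (toTr E).holes = E.holes.map toTr := by
  induction E with
  | leaf g =>
    simp only [toTr, Tr.holes, Formula.holes, List.map_cons, List.map_nil, map_zero, map_one]
  | gate c₀ c₁ c₂ c₃ a b iha ihb =>
    simp only [toTr, Tr.holes, Formula.holes, iha, ihb, List.map_append, List.map_cons,
      List.map_nil, List.map_map, map_zero, map_one]
    rfl

theorem toTr_segs (E : Formula n) : (toTr E).segs = E.segs.map toTr := by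
  induction E with
  | leaf g =>
    rw [toTr, Tr.segs, Formula.segs, ← toTr_holes]
    rfl
  | gate c₀ c₁ c₂ c₃ a b iha ihb =>
    simp only [Formula.segs, List.map_append, ← toTr_holes, ← iha, ← ihb]
    rfl

section good

/-- leaves of the modified formulas -/
def LeafP (w s D : ℕ) (g : MvPolynomial (Fin n) ℂ) : Prop := Prog w s D g ∨ ∃ c, g = C c

/-- the condition on the formulas -/
def Good (w s D : ℕ) (E : Formula n) : Prop := E.Leaves (LeafP w s D) ∧ ∀ x, E.reads x ≤ w

theorem reads_const (c : ℂ) (x : Fin n) : (Formula.leaf (C c) : Formula n).reads x = 0 := by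
  rw [Formula.reads, vars_C, if_neg (Finset.notMem_empty x)]

theorem Leaves.mono {L L' : MvPolynomial (Fin n) ℂ → Prop} (h : ∀ g, L g → L' g)
    {E : Formula n} (hE : E.Leaves L) : E.Leaves L' := by
  induction E with
  | leaf g => exact h g hE
  | gate c₀ c₁ c₂ c₃ a b iha ihb => exact ⟨iha hE.1, ihb hE.2⟩

theorem holes_good {w s D : ℕ} (E : Formula n) : Good w s D E → ∀ E' ∈ E.holes,
    E'.Leaves (LeafP w s D) ∧ ∀ x, E'.reads x ≤ E.reads x := by
  have hc : ∀ (E : Formula n) (c : ℂ), (Formula.leaf (C c) : Formula n).Leaves (LeafP w s D) ∧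
      ∀ x, (Formula.leaf (C c) : Formula n).reads x ≤ E.reads x := by
    intro E c
    refine ⟨Or.inr ⟨c, rfl⟩, fun x => ?_⟩
    rw [reads_const]
    exact Nat.zero_le _
  induction E with
  | leaf g =>
    intro hg E' hE'
    simp only [Formula.holes, List.mem_cons, List.not_mem_nil, or_false] at hE'
    rcases hE' with rfl | rfl | rfl
    · exact ⟨hg.1, fun x => le_rfl⟩
    · exact hc _ 0
    · exact hc _ 1
  | gate c₀ c₁ c₂ c₃ a b iha ihb =>
    intro hg E' hE'
    have ga : Good w s D a := ⟨hg.1.1, fun x => (Nat.le_add_right _ _).trans (hg.2 x)⟩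
    have gb : Good w s D b := ⟨hg.1.2, fun x => (Nat.le_add_left _ _).trans (hg.2 x)⟩
    simp only [Formula.holes, List.mem_append, List.mem_cons, List.not_mem_nil, or_false,
      List.mem_map] at hE'
    rcases hE' with (rfl | rfl | rfl) | ⟨a', ha', rfl⟩ | ⟨b', hb', rfl⟩
    · exact ⟨hg.1, fun x => le_rfl⟩
    · exact hc _ 0
    · exact hc _ 1
    · exact ⟨⟨(iha ga a' ha').1, hg.1.2⟩, fun x => Nat.add_le_add_right ((iha ga a' ha').2 x) _⟩
    · exact ⟨⟨hg.1.1, (ihb gb b' hb').1⟩, fun x => Nat.add_le_add_left ((ihb gb b' hb').2 x) _⟩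

theorem segs_good {w s D : ℕ} (E : Formula n) : Good w s D E → ∀ E' ∈ E.segs, Good w s D E' := by
  have key : ∀ E : Formula n, Good w s D E → ∀ E' ∈ E.holes, Good w s D E' :=
    fun E hE E' hE' => ⟨(holes_good E hE E' hE').1,
      fun x => ((holes_good E hE E' hE').2 x).trans (hE.2 x)⟩
  induction E with
  | leaf g => exact fun hg => key _ hg
  | gate c₀ c₁ c₂ c₃ a b iha ihb =>
    intro hg E' hE'
    rw [Formula.segs, List.mem_append, List.mem_append] at hE'
    rcases hE' with h | h | h
    · exact key _ hg E' h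
    · exact iha ⟨hg.1.1, fun x => (Nat.le_add_right _ _).trans (hg.2 x)⟩ E' h
    · exact ihb ⟨hg.1.2, fun x => (Nat.le_add_left _ _).trans (hg.2 x)⟩ E' h

theorem toTr_lv {w s D κ : ℕ} {𝔎 : Fam (RatFunc ℂ)} {σ : ℕ}
    (h𝔎 : ∀ f : MvPolynomial (Fin n) ℂ, f.support.card ≤ s → sext f ∈ 𝔎.K σ n 1)
    (E : Formula n) (h : E.Leaves (LeafP w s D)) : (toTr E).Lv (LfD 𝔎 σ n w D κ) := by
  induction E with
  | leaf g =>
    rcases h with h | ⟨c, rfl⟩
    · exact prog_lf h𝔎 h
    · have h1 : sext (C c : MvPolynomial (Fin n) ℂ) = C (algebraMap ℂ (RatFunc ℂ) c) := map_C _ _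
      show sext (C c) ∈ _
      rw [h1]
      exact LfD.const _
  | gate c₀ c₁ c₂ c₃ a b iha ihb => exact ⟨iha h.1, ihb h.2⟩

/-- nonvanishing of the gates at the origin, over the field of rational functions -/
theorem gps_ne {σ : Fin n → ℂ} {N : ℕ} {E : Formula n}
    (h : ∀ g ∈ E.partials, g ≠ 0 → eval σ g ≠ 0) :
    ∀ g ∈ (toTr E).gps, g ≠ 0 → eval (rpt (sbase σ N)) g ≠ 0 := by
  intro g hg hg0
  rw [toTr_partials] at hg
  obtain ⟨g', hg', rfl⟩ := List.mem_map.1 hg
  exact eval_rpt_ne (sbase_ne_of_eval (h g' hg' fun hc => hg0 (by rw [hc, map_zero])))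

/-- polynomials in two formulas are hit -/
theorem pair_hit (w D : ℕ) : ∃ A m : ℕ, ∀ n s N : ℕ, (s + 2) ^ A ≤ N → ∀ σ : Fin n → ℂ,
    (∀ i, σ i ≠ 0) → ∀ a b : Formula n, Good w s D a → Good w s D b →
    (∀ g ∈ a.partials, g ≠ 0 → eval σ g ≠ 0) → (∀ g ∈ b.partials, g ≠ 0 → eval σ g ≠ 0) →
    ∀ f ∈ Algebra.adjoin ℂ ({a.value, b.value} : Set (MvPolynomial (Fin n) ℂ)), f ≠ 0 →
    sext f ∉ (rVan (sbase σ N)).I m ∅ := by
  classical
  by_contra hcon
  push Not at hcon
  choose n_ s_ N_ hN σ_ hσ a_ b_ ha hb hra hrb f_ hf_ hf0 hev using fun k => hcon k k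
  have hβ : ∀ k (h : MvPolynomial (Fin (n_ k)) ℂ), h ≠ 0 → h.support.card ≤ (s_ k + 2) ^ k →
      aeval (sbase (σ_ k) (N_ k)) h ≠ 0 := fun k h h0 hs => sbase_ne (hσ k) h0 (hs.trans (hN k))
  set 𝔎 : Fam (RatFunc ℂ) := bfam n_ s_ (fun k => sbase (σ_ k) (N_ k)) hβ with h𝔎
  obtain ⟨m, hm⟩ := poly_hit4 (F := RatFunc ℂ) (up 𝔎 D) (w + 1) 2 (bd w D + (up 𝔎 D).c0)
  have hmem : ∀ f : MvPolynomial (Fin (n_ m)) ℂ, f.support.card ≤ s_ m →
      sext f ∈ 𝔎.K m (n_ m) 1 := fun f hf => bfam_mem hβ m hf
  have hlv : ∀ E : Formula (n_ m), Good w (s_ m) D E →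
      (toTr E).Lv ((up 𝔎 D).K m (n_ m) (bd w D + (up 𝔎 D).c0)) := fun E hE =>
    (toTr_lv (κ := 0) hmem E hE.1).mono fun g hg => hg.1
  have hocc : ∀ E : Formula (n_ m), Good w (s_ m) D E → ∀ i, (toTr E).occ i ≤ w + 1 := by
    intro E hE i
    rw [toTr_occ]
    exact (hE.2 i).trans (Nat.le_succ w)
  refine hm (n_ m) m (rpt (sbase (σ_ m) (N_ m))) (bfam_ok hβ D m) ![toTr (a_ m), toTr (b_ m)]
    ?_ ?_ ?_ (sext (f_ m)) ?_ (fun h => hf0 m (ext_inj (by rw [h, map_zero]))) (hev m)
  · intro q; fin_cases q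
    exacts [hlv _ (ha m), hlv _ (hb m)]
  · intro q; fin_cases q
    exacts [hocc _ (ha m), hocc _ (hb m)]
  · intro q; fin_cases q
    exacts [gps_ne (hra m), gps_ne (hrb m)]
  · have h1 : f_ m ∈ Algebra.adjoin ℂ (Set.range ![(a_ m).value, (b_ m).value]) := by
      refine Algebra.adjoin_mono ?_ (hf_ m)
      rintro x (rfl | rfl)
      · exact ⟨0, rfl⟩
      · exact ⟨1, rfl⟩
    have h2 := ext_adjoin h1
    refine Algebra.adjoin_mono ?_ h2
    rintro _ ⟨i, rfl⟩
    refine ⟨i, ?_⟩
    fin_cases i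
    · exact toTr_val _
    · exact toTr_val _

/-- the members of `Sums` are hit -/
theorem sums_hit (w D κ : ℕ) : ∃ A m : ℕ, ∀ n s N : ℕ, (s + 2) ^ A ≤ N → ∀ σ : Fin n → ℂ,
    (∀ i, σ i ≠ 0) → ∀ l : List (Formula n), (∀ E ∈ l, Good w s D E) →
    (∀ E ∈ l, ∀ E' ∈ E.segs, ∀ g ∈ E'.partials, g ≠ 0 → eval σ g ≠ 0) →
    ∀ f : MvPolynomial (Fin n) ℂ, Sums l w κ f → f ≠ 0 →
    sext f ∉ (rVan (sbase σ N)).I m ∅ := by
  classical
  by_contra hcon
  push Not at hcon
  choose n_ s_ N_ hN σ_ hσ l_ hl hr f_ hf_ hf0 hev using fun k => hcon k k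
  have hβ : ∀ k (h : MvPolynomial (Fin (n_ k)) ℂ), h ≠ 0 → h.support.card ≤ (s_ k + 2) ^ k →
      aeval (sbase (σ_ k) (N_ k)) h ≠ 0 := fun k h h0 hs => sbase_ne (hσ k) h0 (hs.trans (hN k))
  set 𝔎 : Fam (RatFunc ℂ) := bfam n_ s_ (fun k => sbase (σ_ k) (N_ k)) hβ with h𝔎
  obtain ⟨m, hm⟩ := tree_hit4 (F := RatFunc ℂ) (up 𝔎 D) κ (w + 1) w (nc w κ D)
    (bd w D + (up 𝔎 D).c0) (Nat.succ_pos w)
  have hmem : ∀ f : MvPolynomial (Fin (n_ m)) ℂ, f.support.card ≤ s_ m →
      sext f ∈ 𝔎.K m (n_ m) 1 := fun f hf => bfam_mem hβ m hf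
  refine hm (n_ m) m (rpt (sbase (σ_ m) (N_ m))) (bfam_ok hβ D m) (LfD 𝔎 m (n_ m) w D κ)
    (fun T => ∃ E ∈ l_ m, T = toTr E) (fun g hg => hg.1) (fun y => LfD.const y)
    (fun A hA g hg => hg.2 A hA) ?_ (sext (f_ m)) ?_
    (fun h => hf0 m (ext_inj (by rw [h, map_zero]))) (hev m)
  · rintro T ⟨E, hE, rfl⟩
    refine ⟨toTr_ml E, toTr_lv hmem E (hl m E hE).1, fun i => ?_, ?_⟩
    · rw [toTr_occ]
      exact ((hl m E hE).2 i).trans (Nat.le_succ w)
    · intro T' hT'
      rw [toTr_segs] at hT'
      obtain ⟨E', hE', rfl⟩ := List.mem_map.1 hT'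
      exact gps_ne (hr m E hE E' hE')
  · obtain ⟨N', T, hT, hdep, hmem'⟩ := hf_ m
    have he : ∀ S : Multiset (MvPolynomial (Fin (n_ m)) ℂ), (S.map sext).prod = sext S.prod :=
      fun S => (map_multiset_prod (sext (n := n_ m)) S).symm
    refine ⟨N', fun i => (T i).map sext, fun i g hg => ?_, fun u => ?_, ?_⟩
    · obtain ⟨g', hg', rfl⟩ := Multiset.mem_map.1 hg
      obtain ⟨E, P, hE, rfl⟩ := hT i g' hg'
      refine ⟨fun i => toTr (E i), map (algebraMap ℂ (RatFunc ℂ)) P,
        fun i => ⟨E i, hE i, rfl⟩, ?_⟩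
      rw [ext_aeval]
      congr 2
      funext i
      exact (toTr_val _).symm
    · simp only [he]
      exact ext_dep (hdep u)
    · simp only [he]
      exact ext_adjoin hmem'

end good

section pts

theorem exists_point {m N d : ℕ} {σ : Fin n → ℤ} {f : MvPolynomial (Fin n) ℂ}
    (h : evG ℂ (sbase (fun i => ((σ i : ℤ) : ℂ)) N) m f ≠ 0) (hd : f.totalDegree ≤ d) :
    ∃ p ∈ points n m N d σ, eval (fun i => (p i : ℂ)) f ≠ 0 := by
  obtain ⟨u, y, z, hu, hy, hz, hne⟩ := exists_gridB (fun i => sbase_degree _ N i) h hd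
  refine ⟨point n m N σ u y z, ?_, ?_⟩
  · unfold points
    rw [Finset.mem_image]
    refine ⟨(u, y, z), ?_, rfl⟩
    rw [Finset.mem_product, Finset.mem_product]
    exact ⟨Finset.mem_range.2 (Nat.lt_succ_of_le hu),
      Fintype.mem_piFinset.2 fun l => Finset.mem_range.2 (Nat.lt_succ_of_le (hy l)),
      Fintype.mem_piFinset.2 fun l => Finset.mem_range.2 (Nat.lt_succ_of_le (hz l))⟩
  · have h3 : (fun i => ((point n m N σ u y z i : ℤ) : ℂ)) = (fun i : Fin n =>
        (sbase (fun i => ((σ i : ℤ) : ℂ)) N i).eval (u : ℂ) +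
        ∑ l, (y l : ℂ) * ∏ j ∈ Finset.univ.erase i, ((z l : ℂ) - ((j : ℕ) : ℂ))) := by
      funext i
      rw [sbase_eval]
      unfold point
      push_cast
      rfl
    rw [h3]
    exact hne

theorem points_card (m N d : ℕ) (σ : Fin n → ℤ) :
    (points n m N d σ).card ≤ (N * d + 1) * ((d + 1) * (n * d + 1)) ^ m := by
  unfold points
  refine Finset.card_image_le.trans ?_
  rw [Finset.card_product, Finset.card_product, Fintype.card_piFinset, Fintype.card_piFinset,
    Finset.card_range]
  simp only [Finset.card_range, Finset.prod_const, Finset.card_univ, Fintype.card_fin]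
  rw [mul_pow]

/-- the bound for the factors of the coordinates -/
def bnd (n m N d : ℕ) : ℕ := 2 ^ (n * N * d) + m * d * (n * d + n) ^ (n - 1)

theorem points_bound {m N d : ℕ} {σ : Fin n → ℤ} (hσ : ∀ i, σ i ≠ 0) {p : Fin n → ℤ}
    (hp : p ∈ points n m N d σ) (i : Fin n) : |p i| ≤ |σ i| * (bnd n m N d : ℤ) := by
  unfold points at hp
  rw [Finset.mem_image] at hp
  obtain ⟨⟨u, y, z⟩, huyz, rfl⟩ := hp
  rw [Finset.mem_product, Finset.mem_product] at huyz
  obtain ⟨hu, hy, hz⟩ := huyz
  simp only [Finset.mem_range, Fintype.mem_piFinset] at hu hy hz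
  unfold point
  have h1σ : (1 : ℤ) ≤ |σ i| := Int.one_le_abs (hσ i)
  have e1 : |σ i * (power N (Nat.nth Nat.Prime i) u : ℤ)| ≤ |σ i| * ((2 ^ (n * N * d) : ℕ) : ℤ) := by
    rw [abs_mul]
    refine mul_le_mul_of_nonneg_left ?_ (abs_nonneg _)
    rw [Nat.abs_cast, Nat.cast_le]
    refine (Pool.Agent.H626R2.Loc.psiN_le (Nat.prime_nth_prime _).one_le).trans ?_
    refine (Nat.pow_le_pow_left (Pool.Agent.H626R2.Loc.nth_prime_le i) u).trans ?_
    rw [← pow_mul]
    refine Nat.pow_le_pow_right (by norm_num) ?_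
    rw [mul_assoc]
    exact Nat.mul_le_mul (by omega) (by omega)
  have e2 : |∑ l : Fin m, (y l : ℤ) * ∏ k ∈ Finset.univ.erase i, ((z l : ℤ) - ((k : ℕ) : ℤ))| ≤
      ((m * d * (n * d + n) ^ (n - 1) : ℕ) : ℤ) := by
    refine (Finset.abs_sum_le_sum_abs _ _).trans ?_
    have h1 : ∀ l ∈ (Finset.univ : Finset (Fin m)),
        |(y l : ℤ) * ∏ j ∈ Finset.univ.erase i, ((z l : ℤ) - ((j : ℕ) : ℤ))| ≤
          (d : ℤ) * ((n * d + n : ℕ) : ℤ) ^ (n - 1) := by
      intro l _
      rw [abs_mul, Finset.abs_prod, Nat.abs_cast]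
      have hyl : (y l : ℤ) ≤ d := by
        have := hy l
        omega
      refine mul_le_mul hyl ?_ (Finset.prod_nonneg fun j _ => abs_nonneg _) (by positivity)
      have h2 : ∏ j ∈ Finset.univ.erase i, |(z l : ℤ) - ((j : ℕ) : ℤ)| ≤
          ∏ _j ∈ Finset.univ.erase i, ((n * d + n : ℕ) : ℤ) := by
        refine Finset.prod_le_prod (fun j _ => abs_nonneg _) fun j _ => ?_
        have hzl := hz l
        have hj := j.isLt
        rw [abs_le]
        constructor <;> push_cast <;> nlinarith
      refine h2.trans ?_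
      rw [Finset.prod_const, Finset.card_erase_of_mem (Finset.mem_univ _), Finset.card_univ,
        Fintype.card_fin]
    refine (Finset.sum_le_sum h1).trans ?_
    rw [Finset.sum_const, Finset.card_univ, Fintype.card_fin, nsmul_eq_mul]
    push_cast
    rw [mul_assoc]
  refine (abs_add_le _ _).trans ((add_le_add e1 e2).trans ?_)
  unfold bnd
  rw [Nat.cast_add, mul_add]
  refine add_le_add le_rfl ?_
  exact le_mul_of_one_le_left (Nat.cast_nonneg _) h1σ

end pts

section run

variable {S : (Fin n → ℤ) → Finset (Fin n → ℤ)}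

theorem Run.keep {L K : List (MvPolynomial (Fin n) ℂ)} {σ : Fin n → ℤ} (h : Run S L σ K) :
    (∀ g ∈ K, eval (fun i => ((σ i : ℤ) : ℂ)) g ≠ 0) ∧
      (K.map totalDegree).sum ≤ (L.map totalDegree).sum + n ∧ ∀ i, X i ∈ K := by
  induction h with
  | start =>
    refine ⟨fun g hg => ?_, ?_, fun i => ?_⟩
    · obtain ⟨i, rfl⟩ := (List.mem_ofFn' X g).1 hg
      rw [eval_X]
      norm_num
    · rw [List.map_ofFn, List.sum_ofFn, List.map_nil, List.sum_nil, zero_add]
      refine (Finset.sum_le_card_nsmul _ _ 1 fun i _ => ?_).trans ?_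
      · exact (totalDegree_X i).le
      · rw [Finset.card_univ, Fintype.card_fin, smul_eq_mul, mul_one]
    · exact (List.mem_ofFn' X _).2 ⟨i, rfl⟩
  | skip g _ _ ih =>
    refine ⟨ih.1, ?_, ih.2.2⟩
    rw [List.map_append, List.sum_append]
    have h1 := ih.2.1
    omega
  | move g p _ _ h ih =>
    refine ⟨fun g' hg' => h g' hg', ?_, fun i => List.mem_cons_of_mem _ (ih.2.2 i)⟩
    rw [List.map_append, List.sum_append, List.map_cons, List.sum_cons]
    simp only [List.map_cons, List.map_nil, List.sum_cons, List.sum_nil]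
    have h1 := ih.2.1
    omega

theorem Run.ne {L K : List (MvPolynomial (Fin n) ℂ)} {σ : Fin n → ℤ} (h : Run S L σ K)
    (i : Fin n) : σ i ≠ 0 := by
  have h1 := h.keep.1 (X i) (h.keep.2.2 i)
  rw [eval_X] at h1
  exact_mod_cast h1

theorem Run.snoc {L K : List (MvPolynomial (Fin n) ℂ)} {σ : Fin n → ℤ}
    {g : MvPolynomial (Fin n) ℂ} (h : Run S (L ++ [g]) σ K) :
    ∃ (σ₀ : Fin n → ℤ) (K₀ : List (MvPolynomial (Fin n) ℂ)), Run S L σ₀ K₀ ∧
      ((K = K₀ ∧ ∀ p ∈ S σ₀, ∃ h ∈ g :: K₀, eval (fun i => (p i : ℂ)) h = 0) ∨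
        K = g :: K₀) := by
  generalize hL : L ++ [g] = L' at h
  cases h with
  | start => simp at hL
  | skip g' h1 h2 =>
    obtain ⟨rfl, h3⟩ := List.append_inj' hL rfl
    obtain rfl : g = g' := by simpa using h3
    exact ⟨_, _, h1, Or.inl ⟨rfl, h2⟩⟩
  | move g' p h1 h2 h3 =>
    obtain ⟨rfl, h4⟩ := List.append_inj' hL rfl
    obtain rfl : g = g' := by simpa using h4
    exact ⟨_, _, h1, Or.inr rfl⟩

/-- every list has a run -/
theorem exists_run (S : (Fin n → ℤ) → Finset (Fin n → ℤ)) (L : List (MvPolynomial (Fin n) ℂ)) :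
    ∃ σ K, Run S L σ K := by
  induction L using List.reverseRecOn with
  | nil => exact ⟨_, _, .start⟩
  | append_singleton L g ih =>
    obtain ⟨σ, K, h⟩ := ih
    by_cases hp : ∃ p ∈ S σ, ∀ h ∈ g :: K, eval (fun i => (p i : ℂ)) h ≠ 0
    · obtain ⟨p, hpS, hp⟩ := hp
      exact ⟨p, g :: K, .move g p h hpS hp⟩
    · refine ⟨σ, K, .skip g h ?_⟩
      intro p hpS
      by_contra hc
      apply hp
      refine ⟨p, hpS, fun h hh he => hc ⟨h, hh, he⟩⟩

theorem Run.bound {m N d : ℕ} {L K : List (MvPolynomial (Fin n) ℂ)} {σ : Fin n → ℤ}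
    (h : Run (points n m N d) L σ K) (i : Fin n) :
    |σ i| ≤ ((bnd n m N d ^ L.length : ℕ) : ℤ) := by
  have hB : 1 ≤ bnd n m N d := by
    unfold bnd
    have := Nat.one_le_two_pow (n := n * N * d)
    omega
  induction h with
  | start => simp
  | skip g _ _ ih =>
    refine ih.trans ?_
    rw [List.length_append, List.length_singleton, Nat.cast_le]
    exact Nat.pow_le_pow_right hB (Nat.le_succ _)
  | move g p h0 hp _ ih =>
    rw [List.length_append, List.length_singleton]
    refine (points_bound (fun i => h0.ne i) hp i).trans ?_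
    rw [pow_succ, Nat.cast_mul]
    exact mul_le_mul_of_nonneg_right ih (Nat.cast_nonneg _)

end run

section adm

/-- lists of polynomials in two formulas whose gate derivatives come before -/
inductive Adm (G : Formula n → Prop) : List (MvPolynomial (Fin n) ℂ) → Prop
  | nil : Adm G []
  | snoc {L : List (MvPolynomial (Fin n) ℂ)} {g : MvPolynomial (Fin n) ℂ} (a b : Formula n) :
      Adm G L → G a → G b → (∀ x ∈ a.partials, x ∈ L) → (∀ x ∈ b.partials, x ∈ L) →
      g ∈ Algebra.adjoin ℂ ({a.value, b.value} : Set (MvPolynomial (Fin n) ℂ)) →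
      Adm G (L ++ [g])

theorem Adm.parts {w s D : ℕ} (E : Formula n) (hE : Good w s D E) :
    ∀ {L : List (MvPolynomial (Fin n) ℂ)}, Adm (Good w s D) L →
      Adm (Good w s D) (L ++ E.partials) := by
  induction E with
  | leaf g => exact fun {L} h => by rwa [Formula.partials, List.append_nil]
  | gate c₀ c₁ c₂ c₃ a b iha ihb =>
    intro L h
    have ha : Good w s D a := ⟨hE.1.1, fun i => (Nat.le_add_right _ _).trans (hE.2 i)⟩
    have hb : Good w s D b := ⟨hE.1.2, fun i => (Nat.le_add_left _ _).trans (hE.2 i)⟩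
    have h2 := ihb hb (iha ha h)
    have hsa : ∀ x ∈ a.partials, x ∈ L ++ a.partials ++ b.partials := fun x hx =>
      List.mem_append.2 (Or.inl (List.mem_append.2 (Or.inr hx)))
    have hsb : ∀ x ∈ b.partials, x ∈ L ++ a.partials ++ b.partials :=
      fun x hx => List.mem_append.2 (Or.inr hx)
    have hC : ∀ (c : ℂ) (T : Set (MvPolynomial (Fin n) ℂ)), C c ∈ Algebra.adjoin ℂ T :=
      fun c T => Subalgebra.algebraMap_mem _ c
    have h3 := Adm.snoc (g := C c₁ + C c₃ * b.value) a b h2 ha hb hsa hsb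
      (Subalgebra.add_mem _ (hC _ _) (Subalgebra.mul_mem _ (hC _ _)
        (Algebra.subset_adjoin (Or.inr rfl))))
    have h4 := Adm.snoc (g := C c₂ + C c₃ * a.value) a b h3 ha hb
      (fun x hx => List.mem_append.2 (Or.inl (hsa x hx)))
      (fun x hx => List.mem_append.2 (Or.inl (hsb x hx)))
      (Subalgebra.add_mem _ (hC _ _) (Subalgebra.mul_mem _ (hC _ _)
        (Algebra.subset_adjoin (Or.inl rfl))))
    have h5 : L ++ (Formula.gate c₀ c₁ c₂ c₃ a b).partials = L ++ a.partials ++ b.partials ++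
        [C c₁ + C c₃ * b.value] ++ [C c₂ + C c₃ * a.value] := by
      simp only [Formula.partials, List.append_assoc, List.cons_append, List.nil_append]
    rw [h5]
    exact h4

theorem Adm.flat {w s D : ℕ} (l : List (Formula n)) (hl : ∀ T ∈ l, Good w s D T) :
    ∀ {L : List (MvPolynomial (Fin n) ℂ)}, Adm (Good w s D) L →
      Adm (Good w s D) (L ++ l.flatMap Formula.partials) := by
  induction l with
  | nil => exact fun {L} h => by rwa [List.flatMap_nil, List.append_nil]
  | cons T l ih =>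
    intro L h
    rw [List.flatMap_cons, ← List.append_assoc]
    exact ih (fun T' hT' => hl T' (List.mem_cons_of_mem _ hT'))
      (Adm.parts T (hl T List.mem_cons_self) h)

theorem Adm.tests {w s D : ℕ} (l : List (Formula n)) (hl : ∀ E ∈ l, Good w s D E) :
    Adm (Good w s D) (tests l) := by
  have h1 : FormulasOverSparse.tests l = (l.flatMap Formula.segs).flatMap Formula.partials := by
    rw [FormulasOverSparse.tests, List.flatMap_assoc]
  rw [h1]
  refine Adm.flat _ ?_ (L := []) Adm.nil
  intro T hT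
  obtain ⟨E, hE, hT⟩ := List.mem_flatMap.1 hT
  exact segs_good E (hl E hE) T hT

/-- all nonzero polynomials of the list are kept -/
theorem adm_run {w s D M N d : ℕ}
    (hm : ∀ σ : Fin n → ℂ, (∀ i, σ i ≠ 0) → ∀ a b : Formula n, Good w s D a → Good w s D b →
      (∀ g ∈ a.partials, g ≠ 0 → eval σ g ≠ 0) → (∀ g ∈ b.partials, g ≠ 0 → eval σ g ≠ 0) →
      ∀ f ∈ Algebra.adjoin ℂ ({a.value, b.value} : Set (MvPolynomial (Fin n) ℂ)), f ≠ 0 →
      sext f ∉ (rVan (sbase σ N)).I M ∅)
    {L : List (MvPolynomial (Fin n) ℂ)} (hL : Adm (Good w s D) L) :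
    n + (L.map totalDegree).sum ≤ d →
    ∀ {σ : Fin n → ℤ} {K : List (MvPolynomial (Fin n) ℂ)}, Run (points n M N d) L σ K →
    ∀ g ∈ L, g ≠ 0 → g ∈ K := by
  induction hL with
  | nil => exact fun _ σ K _ g hg => absurd hg List.not_mem_nil
  | @snoc L g a b _ ha hb hga hgb hg ih =>
    intro hD σ K hrun
    obtain ⟨σ₀, K₀, hrun₀, hK⟩ := hrun.snoc
    have hD' := hD
    rw [List.map_append, List.sum_append] at hD'
    have ih' := ih (by omega) hrun₀
    have hsub : ∀ x ∈ K₀, x ∈ K := by
      rcases hK with ⟨rfl, _⟩ | rfl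
      · exact fun x hx => hx
      · exact fun x hx => List.mem_cons_of_mem _ hx
    intro g' hg' hg'0
    rcases List.mem_append.1 hg' with h | h
    · exact hsub _ (ih' g' h hg'0)
    obtain rfl : g' = g := List.mem_singleton.1 h
    rcases hK with ⟨rfl, hno⟩ | rfl
    · exfalso
      obtain ⟨hkeep, hdeg, _⟩ := hrun₀.keep
      have hσ0 : ∀ i, ((σ₀ i : ℤ) : ℂ) ≠ 0 := fun i => by exact_mod_cast hrun₀.ne i
      have h1 : evG ℂ (sbase (fun i => ((σ₀ i : ℤ) : ℂ)) N) M g' ≠ 0 := by
        intro hc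
        exact hm (fun i => ((σ₀ i : ℤ) : ℂ)) hσ0 a b ha hb
          (fun x hx hx0 => hkeep x (ih' x (hga x hx) hx0))
          (fun x hx hx0 => hkeep x (ih' x (hgb x hx) hx0)) g' hg hg'0 (mem_rVan hc)
      have h2 : ∀ x ∈ g' :: K, evG ℂ (sbase (fun i => ((σ₀ i : ℤ) : ℂ)) N) M x ≠ 0 := by
        intro x hx
        rcases List.mem_cons.1 hx with rfl | hx
        · exact h1
        · exact evB_ne (sbase_ne_of_eval (hkeep x hx))
      have h3 : evG ℂ (sbase (fun i => ((σ₀ i : ℤ) : ℂ)) N) M (g' :: K).prod ≠ 0 := by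
        rw [map_list_prod]
        refine List.prod_ne_zero ?_
        intro hc
        obtain ⟨x, hx, hx0⟩ := List.mem_map.1 hc
        exact h2 x hx hx0
      have h4 : (g' :: K).prod.totalDegree ≤ d := by
        refine (totalDegree_list_prod _).trans ?_
        rw [List.map_cons, List.sum_cons]
        simp only [List.map_cons, List.map_nil, List.sum_cons, List.sum_nil] at hD'
        omega
      obtain ⟨p, hp, hpe⟩ := exists_point h3 h4
      obtain ⟨h, hh, hh0⟩ := hno p hp
      apply hpe
      rw [map_list_prod]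
      exact List.prod_eq_zero (List.mem_map.2 ⟨h, hh, hh0⟩)
    · exact List.mem_cons_self

end adm

section count

theorem size_pos (E : Formula n) : 1 ≤ E.size := by
  induction E with
  | leaf g => exact le_rfl
  | gate c₀ c₁ c₂ c₃ a b iha ihb => rw [Formula.size]; omega

theorem holes_length (E : Formula n) : E.holes.length + 3 ≤ 6 * E.size := by
  induction E with
  | leaf g => simp [Formula.holes, Formula.size]
  | gate c₀ c₁ c₂ c₃ a b iha ihb =>
    simp only [Formula.holes, Formula.size, List.length_append, List.length_map,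
      List.length_cons, List.length_nil]
    omega

theorem segs_length (E : Formula n) : E.segs.length ≤ 6 * E.size ^ 2 := by
  induction E with
  | leaf g => simp [Formula.segs, Formula.holes, Formula.size]
  | gate c₀ c₁ c₂ c₃ a b iha ihb =>
    have h1 := holes_length (Formula.gate c₀ c₁ c₂ c₃ a b)
    have ha := size_pos a
    have hb := size_pos b
    simp only [Formula.segs, List.length_append]
    have h2 : (Formula.gate c₀ c₁ c₂ c₃ a b).size = a.size + b.size := rfl
    rw [h2] at h1 ⊢
    nlinarith [Nat.mul_le_mul ha hb]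

theorem partials_length (E : Formula n) : E.partials.length + 2 = 2 * E.size := by
  induction E with
  | leaf g => rfl
  | gate c₀ c₁ c₂ c₃ a b iha ihb =>
    simp only [Formula.partials, Formula.size, List.length_append, List.length_cons,
      List.length_nil]
    omega

theorem holes_prop (δ : ℕ) (E : Formula n) : E.Leaves (fun g => g.totalDegree ≤ δ) →
    ∀ E' ∈ E.holes, E'.size ≤ E.size ∧ E'.Leaves (fun g => g.totalDegree ≤ δ) := by
  have hc : ∀ c : ℂ, (Formula.leaf (C c) : Formula n).Leaves (fun g => g.totalDegree ≤ δ) := by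
    intro c
    show (C c : MvPolynomial (Fin n) ℂ).totalDegree ≤ δ
    rw [totalDegree_C]
    exact Nat.zero_le _
  induction E with
  | leaf g =>
    intro hg E' hE'
    simp only [Formula.holes, List.mem_cons, List.not_mem_nil, or_false] at hE'
    rcases hE' with rfl | rfl | rfl
    · exact ⟨le_rfl, hg⟩
    · exact ⟨le_rfl, hc 0⟩
    · exact ⟨le_rfl, hc 1⟩
  | gate c₀ c₁ c₂ c₃ a b iha ihb =>
    intro hg E' hE'
    have ha := size_pos a
    simp only [Formula.holes, List.mem_append, List.mem_cons, List.not_mem_nil, or_false,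
      List.mem_map] at hE'
    rcases hE' with (rfl | rfl | rfl) | ⟨a', ha', rfl⟩ | ⟨b', hb', rfl⟩
    · exact ⟨le_rfl, hg⟩
    · exact ⟨by simp only [Formula.size]; omega, hc 0⟩
    · exact ⟨by simp only [Formula.size]; omega, hc 1⟩
    · have h1 := iha hg.1 a' ha'
      exact ⟨Nat.add_le_add_right h1.1 _, h1.2, hg.2⟩
    · have h1 := ihb hg.2 b' hb'
      exact ⟨Nat.add_le_add_left h1.1 _, hg.1, h1.2⟩

theorem segs_prop (δ : ℕ) (E : Formula n) : E.Leaves (fun g => g.totalDegree ≤ δ) →
    ∀ E' ∈ E.segs, E'.size ≤ E.size ∧ E'.Leaves (fun g => g.totalDegree ≤ δ) := by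
  induction E with
  | leaf g => exact fun hg => holes_prop δ _ hg
  | gate c₀ c₁ c₂ c₃ a b iha ihb =>
    intro hg E' hE'
    rw [Formula.segs, List.mem_append, List.mem_append] at hE'
    rcases hE' with h | h | h
    · exact holes_prop δ _ hg E' h
    · exact ⟨(iha hg.1 E' h).1.trans (Nat.le_add_right _ _), (iha hg.1 E' h).2⟩
    · exact ⟨(ihb hg.2 E' h).1.trans (Nat.le_add_left _ _), (ihb hg.2 E' h).2⟩

theorem value_degree (δ : ℕ) (E : Formula n) (h : E.Leaves (fun g => g.totalDegree ≤ δ)) :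
    E.value.totalDegree ≤ δ * E.size := by
  induction E with
  | leaf g =>
    rw [Formula.size, mul_one]
    exact h
  | gate c₀ c₁ c₂ c₃ a b iha ihb =>
    have h1 := iha h.1
    have h2 := ihb h.2
    have hC : ∀ (c : ℂ) (f : MvPolynomial (Fin n) ℂ), (C c * f).totalDegree ≤ f.totalDegree := by
      intro c f
      refine (totalDegree_mul _ _).trans ?_
      rw [totalDegree_C, zero_add]
    rw [Formula.value, Formula.size, mul_add]
    refine (totalDegree_add _ _).trans (max_le ((totalDegree_add _ _).trans (max_le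
      ((totalDegree_add _ _).trans (max_le ?_ ?_)) ?_)) ?_)
    · rw [totalDegree_C]; exact Nat.zero_le _
    · exact (hC _ _).trans (h1.trans (Nat.le_add_right _ _))
    · exact (hC _ _).trans (h2.trans (Nat.le_add_left _ _))
    · exact (hC _ _).trans ((totalDegree_mul _ _).trans (Nat.add_le_add h1 h2))

theorem partials_degree (δ : ℕ) (E : Formula n) (h : E.Leaves (fun g => g.totalDegree ≤ δ)) :
    ∀ g ∈ E.partials, g.totalDegree ≤ δ * E.size := by
  induction E with
  | leaf g => exact fun g hg => absurd hg List.not_mem_nil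
  | gate c₀ c₁ c₂ c₃ a b iha ihb =>
    intro g hg
    have hC : ∀ (c c' : ℂ) (f : MvPolynomial (Fin n) ℂ),
        (C c + C c' * f).totalDegree ≤ f.totalDegree := by
      intro c c' f
      refine (totalDegree_add _ _).trans (max_le ?_ ?_)
      · rw [totalDegree_C]; exact Nat.zero_le _
      · refine (totalDegree_mul _ _).trans ?_
        rw [totalDegree_C, zero_add]
    rw [Formula.size, mul_add]
    simp only [Formula.partials, List.mem_append, List.mem_cons, List.not_mem_nil,
      or_false] at hg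
    rcases hg with (hg | hg) | (rfl | rfl)
    · exact (iha h.1 g hg).trans (Nat.le_add_right _ _)
    · exact (ihb h.2 g hg).trans (Nat.le_add_left _ _)
    · exact (hC _ _ _).trans ((value_degree δ b h.2).trans (Nat.le_add_left _ _))
    · exact (hC _ _ _).trans ((value_degree δ a h.1).trans (Nat.le_add_right _ _))

theorem flatMap_length_le {α β : Type} (l : List α) (g : α → List β) (B : ℕ)
    (h : ∀ x ∈ l, (g x).length ≤ B) : (l.flatMap g).length ≤ l.length * B := by
  induction l with
  | nil => simp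
  | cons x l ih =>
    rw [List.flatMap_cons, List.length_append, List.length_cons, add_mul, one_mul, add_comm]
    exact Nat.add_le_add (ih fun y hy => h y (List.mem_cons_of_mem _ hy))
      (h x List.mem_cons_self)

theorem tests_count (l : List (Formula n)) (S δ : ℕ)
    (h : ∀ E ∈ l, E.size ≤ S ∧ E.Leaves (fun g => g.totalDegree ≤ δ)) :
    (tests l).length ≤ 12 * l.length * S ^ 3 ∧
      ((tests l).map totalDegree).sum ≤ 12 * l.length * S ^ 4 * δ := by
  have h1 : (tests l).length ≤ 12 * l.length * S ^ 3 := by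
    refine (flatMap_length_le l _ (12 * S ^ 3) fun E hE => ?_).trans (le_of_eq (by ring))
    refine (flatMap_length_le E.segs _ (2 * S) fun E' hE' => ?_).trans ?_
    · have h2 := partials_length E'
      have h3 := (segs_prop δ E (h E hE).2 E' hE').1
      have h4 := (h E hE).1
      omega
    · have h2 := segs_length E
      have h3 : E.size ^ 2 ≤ S ^ 2 := Nat.pow_le_pow_left (h E hE).1 2
      calc E.segs.length * (2 * S) ≤ (6 * S ^ 2) * (2 * S) :=
            Nat.mul_le_mul_right _ (by omega)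
        _ = 12 * S ^ 3 := by ring
  refine ⟨h1, ?_⟩
  have h2 : ∀ d ∈ (tests l).map totalDegree, d ≤ δ * S := by
    intro d hd
    obtain ⟨g, hg, rfl⟩ := List.mem_map.1 hd
    obtain ⟨E, hE, hg⟩ := List.mem_flatMap.1 hg
    obtain ⟨E', hE', hg⟩ := List.mem_flatMap.1 hg
    have h3 := segs_prop δ E (h E hE).2 E' hE'
    exact (partials_degree δ E' h3.2 g hg).trans (Nat.mul_le_mul_left _ (h3.1.trans (h E hE).1))
  have h3 := List.sum_le_card_nsmul _ _ h2
  rw [List.length_map, smul_eq_mul] at h3
  calc ((tests l).map totalDegree).sum ≤ (tests l).length * (δ * S) := h3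
    _ ≤ (12 * l.length * S ^ 3) * (δ * S) := Nat.mul_le_mul_right _ h1
    _ = 12 * l.length * S ^ 4 * δ := by ring

end count

theorem good_of {w s D : ℕ} {l : List (Formula n)}
    (hl : ∀ E ∈ l, E.Leaves (Prog w s D) ∧ ∀ x, E.reads x ≤ w) : ∀ E ∈ l, Good w s D E :=
  fun E hE => ⟨Leaves.mono (fun _ hg => Or.inl hg) (hl E hE).1, (hl E hE).2⟩

/-- the final origin -/
theorem hit_of_run (w D κ : ℕ) : ∃ k m : ℕ, ∀ (n d s : ℕ) (l : List (Formula n)),
    (∀ E ∈ l, E.Leaves (Prog w s D) ∧ ∀ x, E.reads x ≤ w) →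
    n + ((tests l).map totalDegree).sum ≤ d →
    ∀ (σ : Fin n → ℤ) (K : List (MvPolynomial (Fin n) ℂ)),
    Run (points n m ((s + 2) ^ k) d) (tests l) σ K → ∀ f : MvPolynomial (Fin n) ℂ,
    Sums l w κ f → f ≠ 0 →
    evG ℂ (sbase (fun i => ((σ i : ℤ) : ℂ)) ((s + 2) ^ k)) m f ≠ 0 := by
  obtain ⟨A₀, m₀, h₀⟩ := pair_hit w D
  obtain ⟨A₁, m₁, h₁⟩ := sums_hit w D κ
  refine ⟨A₀ + A₁, m₀ + m₁, ?_⟩
  intro n d s l hl hD σ K hrun f hf hf0
  have hg := good_of hl
  have hN0 : (s + 2) ^ A₀ ≤ (s + 2) ^ (A₀ + A₁) := Nat.pow_le_pow_right (by omega) (by omega)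
  have hN1 : (s + 2) ^ A₁ ≤ (s + 2) ^ (A₀ + A₁) := Nat.pow_le_pow_right (by omega) (by omega)
  have hall := adm_run (M := m₀ + m₁) (N := (s + 2) ^ (A₀ + A₁)) (d := d)
    (fun σ hσ a b ha hb hra hrb f hf hf0 hc => h₀ n s _ hN0 σ hσ a b ha hb hra hrb f hf hf0
      ((rVan (sbase σ ((s + 2) ^ (A₀ + A₁)))).mono (Nat.le_add_right m₀ m₁) ∅ hc))
    (Adm.tests l hg) hD hrun
  obtain ⟨hkeep, _, _⟩ := hrun.keep
  have hσ0 : ∀ i, ((σ i : ℤ) : ℂ) ≠ 0 := fun i => by exact_mod_cast hrun.ne i
  intro hc
  refine h₁ n s _ hN1 (fun i => ((σ i : ℤ) : ℂ)) hσ0 l hg ?_ f hf hf0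
    ((rVan _).mono (Nat.le_add_left m₁ m₀) ∅ (mem_rVan hc))
  intro E hE E' hE' g hg hg0
  refine hkeep g (hall g ?_ hg0)
  exact List.mem_flatMap.2 ⟨E, hE, List.mem_flatMap.2 ⟨E', hE', hg⟩⟩

theorem sums_formula {w κ : ℕ} (hw : 1 ≤ w) (l : List (Formula n))
    (T : Fin κ → Multiset (Formula n)) (hT : ∀ i, ∀ E ∈ T i, E ∈ l) :
    Sums l w κ (∑ i, ((T i).map Formula.value).prod) := by
  refine ⟨κ, fun i => (T i).map Formula.value, ?_, ?_,
    Subalgebra.sum_mem _ fun i _ => Algebra.subset_adjoin ⟨i, rfl⟩⟩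
  · intro i g hg
    obtain ⟨E, hE, rfl⟩ := Multiset.mem_map.1 hg
    exact ⟨fun _ => E, X ⟨0, hw⟩, fun _ => hT i E hE, by rw [aeval_X]⟩
  · intro u hu
    have h1 : Function.Injective u := by
      intro a b hab
      exact hu.injective (by
        show ((T (u a)).map Formula.value).prod = ((T (u b)).map Formula.value).prod
        rw [hab])
    have h2 := Fintype.card_le_of_injective u h1
    rw [Fintype.card_fin, Fintype.card_fin] at h2
    omega

/-- Let `w, D, κ` be fixed. There are `k, m` such that the following holds for every list `l` of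
formulas in `n` variables over leaves of depth at most `D` (for instance, for `D = 0`, over
polynomials with at most `s` monomials of degree less than `w` in every variable), where every
variable occurs in at most `w` leaves of a formula (for instance read-once formulas of any depth),
and for every `d` that is at least `n` plus the sum of the degrees of the polynomials in
`tests l`. Let `N = (s + 2)^k`. The search `Run` over the explicit sets `points n m N d` and the
list `tests l` always ends in an origin `σ` such that every polynomial `f` of degree at most `d`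
that divides a product of nonzero members of `Sums l w κ` does not vanish at some of the at most
`(Nd+1) ((d+1)(nd+1))^m` points of `points n m N d σ`. The coordinates of `σ` have polynomial
length, there are polynomially many tests, their degrees are bounded polynomially, and
`Sums l w κ` contains all sums of `κ` products, of any number of factors, of members of `l`. -/
theorem result :
    (∀ w D κ : ℕ, ∃ k m : ℕ, ∀ (n d s : ℕ) (l : List (Formula n)),
      (∀ E ∈ l, E.Leaves (Prog w s D) ∧ ∀ x, E.reads x ≤ w) →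
      n + ((tests l).map totalDegree).sum ≤ d →
      (∀ σ, (points n m ((s + 2) ^ k) d σ).card ≤
        ((s + 2) ^ k * d + 1) * ((d + 1) * (n * d + 1)) ^ m) ∧
      (∃ σ K, Run (points n m ((s + 2) ^ k) d) (tests l) σ K) ∧
      ∀ σ K, Run (points n m ((s + 2) ^ k) d) (tests l) σ K →
        (∀ i, |σ i| ≤ (((2 ^ (n * (s + 2) ^ k * d) + m * d * (n * d + n) ^ (n - 1)) ^
          (tests l).length : ℕ) : ℤ)) ∧
        ∀ (f : MvPolynomial (Fin n) ℂ) (J : ℕ) (F : Fin J → MvPolynomial (Fin n) ℂ),
          (∀ j, Sums l w κ (F j)) → (∀ j, F j ≠ 0) → f ∣ ∏ j, F j → f.totalDegree ≤ d →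
          ∃ p ∈ points n m ((s + 2) ^ k) d σ, eval (fun i => (p i : ℂ)) f ≠ 0) ∧
    (∀ (n S δ : ℕ) (l : List (Formula n)),
      (∀ E ∈ l, E.size ≤ S ∧ E.Leaves (fun g => g.totalDegree ≤ δ)) →
      (tests l).length ≤ 12 * l.length * S ^ 3 ∧
        ((tests l).map totalDegree).sum ≤ 12 * l.length * S ^ 4 * δ) ∧
    (∀ (n w κ : ℕ) (l : List (Formula n)) (T : Fin κ → Multiset (Formula n)), 1 ≤ w →
      (∀ i, ∀ E ∈ T i, E ∈ l) → Sums l w κ (∑ i, ((T i).map Formula.value).prod)) := by
  refine ⟨?_, fun n S δ l h => tests_count l S δ h, fun n w κ l T hw hT => sums_formula hw l T hT⟩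
  intro w D κ
  obtain ⟨k, m, hm⟩ := hit_of_run w D κ
  refine ⟨k, m, fun n d s l hl hD => ⟨fun σ => points_card m _ d σ, exists_run _ _,
    fun σ K hrun => ⟨fun i => hrun.bound i, ?_⟩⟩⟩
  intro f J F hF hF0 hdvd hd
  refine exists_point (fun hz => ?_) hd
  obtain ⟨g, hg⟩ := hdvd
  have h2 : evG ℂ (sbase (fun i => ((σ i : ℤ) : ℂ)) ((s + 2) ^ k)) m (∏ j, F j) = 0 := by
    rw [hg, map_mul, hz, zero_mul]
  rw [map_prod] at h2
  obtain ⟨j, _, hj⟩ := Finset.prod_eq_zero_iff.1 h2
  exact hm n d s l hl hD σ K hrun (F j) (hF j) (hF0 j) hj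

end Pool.Agent.Results.MP_e2be99_lc.FormulasOverSparse
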