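import Mathlib
import Pool.Agent.W981.Loc.Core

/-!
# Deterministic polynomial identity testing for determinants in almost independent linear forms

Let `K` be a field of characteristic zero.  We consider the matrices

  `M(x) = B + ∑ i, ℓ_i(x) u_i v_iᵀ`,   `ℓ_i = ∑ k, a k i * x_k`,

where `B` is an arbitrary constant matrix, the vectors `u_i`, `v_i` are given, and the linear forms
`ℓ_i` in the variables `x_1, …, x_s` satisfy at most `c` linear relations, that is, the number of
the forms is at most `rank a + c`.  (Affine forms `ℓ_i` are covered as well: their constant terms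
can be put into `B`.)  So `det M` is obtained from a determinant in which every variable occurs in a
matrix of rank one by the substitution of almost independent linear forms.

We prove that the rank of `M` over `K(x)`, and whether `det M = 0`, is found by a local search among
the integer points `λ`, with the potential

  `Φ(λ) = rank M(λ) + ∑ i, rank [M(λ); v_iᵀ]`

and the explicit set of at most `(q + 1) ^ (32 c + 6)` directions

  `d_k = ∑_j y_j ∏_{l ≠ k} (z_j - l)`,  `y_j, z_j ∈ {0, …, q}`,  `j = 1, …, 16 c + 3`,

where `q = (N + 1) n s`, `N` is the number of the forms and `n` the number of columns.  If no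
direction increases the potential at `λ` then `M(λ)` has the rank of `M`.  The potential is at most
`(N + 1) n`, so that this happens after so many steps.

The proof.  Let `L` be `M` at the generic point of the set of directions with `16 c` seeds, over the
field `F` of rational functions in the seeds.  Since no direction increases the potential, `L` has
the rank of `M(λ)`, and `L + t N` has this rank and keeps the relations `v_i ⟂ ker L` for almost all
`t`, for all matrices `N` in directions with at most three nonzero coordinates.  This gives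
derivatives of `ker L` of order up to three, and the method of the block theorem for affine families
shows that there are subspaces `U₁ ≤ U₂` of `K ^ n` with `dim U₂/U₁ ≤ 16 c` which certify the rank
of `L`.  The block of `M` which belongs to this pair has at most `16 c` columns, and its minors,
polynomials of degree at most `16 c`, do not vanish at the generic point of the directions with
`16 c` seeds.  Therefore the pair certifies that the rank of `M` is at most the rank of `L`.
-/

set_option autoImplicit false
set_option linter.unusedSectionVars false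

open MvPolynomial Matrix Module

namespace Pool.Agent.Results.MP_e2be99_lc.AlmostIndependentForms

/-- The matrix `B + ∑ i, (∑ k, a k i * x_k) u_i v_iᵀ` with entries in `K[x_1, …, x_s]`. -/
noncomputable def symbolicMatrix {K m n ι : Type} [Field K] [Fintype ι] {s : ℕ}
    (B : Matrix m n K) (u : ι → m → K) (v : ι → n → K) (a : Matrix (Fin s) ι K) :
    Matrix m n (MvPolynomial (Fin s) K) :=
  B.map C + ∑ i, (∑ k, C (a k i) * X k : MvPolynomial (Fin s) K) •
    (vecMulVec (u i) (v i)).map C

/-- The rank of a matrix of polynomials over the field of rational functions. -/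
noncomputable def symbolicRank {K m n : Type} [Field K] [Fintype n] {s : ℕ}
    (M : Matrix m n (MvPolynomial (Fin s) K)) : ℕ :=
  (M.map (algebraMap (MvPolynomial (Fin s) K) (FractionRing (MvPolynomial (Fin s) K)))).rank

/-- The value at the integer point `lam` of a matrix of polynomials. -/
noncomputable def valueAt {K m n : Type} [Field K] {s : ℕ}
    (M : Matrix m n (MvPolynomial (Fin s) K)) (lam : Fin s → ℤ) : Matrix m n K :=
  M.map (eval fun k => (lam k : K))

/-- The matrix `M` with the additional row `v`. -/
def addRow {K m n : Type} (M : Matrix m n K) (v : n → K) : Matrix (m ⊕ Unit) n K :=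
  fromRows M (of fun _ => v)

/-- The potential `rank M(λ) + ∑ i, rank [M(λ); v_iᵀ]`. -/
noncomputable def potential {K m n ι : Type} [Field K] [Fintype n] [Fintype ι]
    {s : ℕ} (M : Matrix m n (MvPolynomial (Fin s) K)) (v : ι → n → K) (lam : Fin s → ℤ) : ℕ :=
  (valueAt M lam).rank + ∑ i, (addRow (valueAt M lam) (v i)).rank

/-- The direction with the seeds `y`, `z`: its coordinate `k` is `∑ j, y_j ∏_{l ≠ k} (z_j - l)`,
where `l` runs over `0, …, s - 1`. -/
def direction {s h : ℕ} (y z : Fin h → ℕ) (k : Fin s) : ℤ :=
  ∑ j, (y j : ℤ) * ∏ l ∈ Finset.univ.erase k, ((z j : ℤ) - ((l : ℕ) : ℤ))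

/-- All directions with `h` pairs of seeds in `{0, …, q}`. -/
def directions (s h q : ℕ) : Finset (Fin s → ℤ) :=
  Finset.univ.image fun p : (Fin h → Fin (q + 1)) × (Fin h → Fin (q + 1)) =>
    direction (fun j => (p.1 j : ℕ)) fun j => (p.2 j : ℕ)

/-- The set of directions for `N` forms in `s` variables with at most `c` linear relations and a
matrix with `n` columns: all directions with `16 c + 3` pairs of seeds in `{0, …, (N + 1) n s}`. -/
def testSet (c N n s : ℕ) : Finset (Fin s → ℤ) :=
  directions s (16 * c + 3) ((N + 1) * (n * s))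

/-- No direction of `D` increases the potential at `lam`. -/
def IsStuck {K m n ι : Type} [Field K] [Fintype n] [Fintype ι] {s : ℕ}
    (M : Matrix m n (MvPolynomial (Fin s) K)) (v : ι → n → K) (D : Finset (Fin s → ℤ))
    (lam : Fin s → ℤ) : Prop :=
  ∀ d ∈ D, potential M v (lam + d) ≤ potential M v lam

/-- The map `next` is a step of the local search: it adds to `lam` some direction of `D` which
increases the potential if there is one, otherwise it does not move. -/
def IsSearchStep {K m n ι : Type} [Field K] [Fintype n] [Fintype ι] {s : ℕ}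
    (M : Matrix m n (MvPolynomial (Fin s) K)) (v : ι → n → K) (D : Finset (Fin s → ℤ))
    (next : (Fin s → ℤ) → (Fin s → ℤ)) : Prop :=
  ∀ lam, (∃ d ∈ D, next lam = lam + d ∧ potential M v lam < potential M v (next lam)) ∨
    (next lam = lam ∧ IsStuck M v D lam)

section proofs

variable {K m n ι : Type} [Field K] [Fintype m] [Fintype n] [Fintype ι] {s : ℕ}

/-- the coefficient matrices -/
def coeffs (u : ι → m → K) (v : ι → n → K) (a : Matrix (Fin s) ι K) (k : Fin s) :
    Matrix m n K := ∑ i, a k i • vecMulVec (u i) (v i)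

theorem symbolicMatrix_eq [DecidableEq (Fin s)] (B : Matrix m n K) (u : ι → m → K)
    (v : ι → n → K) (a : Matrix (Fin s) ι K) :
    symbolicMatrix B u v a = W981.Aff.afs B (coeffs u v a) := by
  rw [symbolicMatrix, W981.Aff.afs, W981.Hyp.sym]
  congr 1
  ext1 p q
  simp only [Matrix.sum_apply, Matrix.smul_apply, Matrix.map_apply, smul_eq_mul, coeffs,
    map_sum, Finset.sum_mul, Finset.mul_sum, map_mul]
  rw [Finset.sum_comm]
  refine Finset.sum_congr rfl fun k _ => Finset.sum_congr rfl fun i _ => ?_
  ring

theorem symbolicRank_eq (B : Matrix m n K) (u : ι → m → K) (v : ι → n → K)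
    (a : Matrix (Fin s) ι K) :
    symbolicRank (symbolicMatrix B u v a) = (W981.Aff.gaf B (coeffs u v a)).rank := by
  rw [symbolicMatrix_eq, W981.Aff.rank_gaf]
  rfl

theorem valueAt_eq (B : Matrix m n K) (u : ι → m → K) (v : ι → n → K)
    (a : Matrix (Fin s) ι K) (lam : Fin s → ℤ) :
    valueAt (symbolicMatrix B u v a) lam =
      W981.Loc.pt B (coeffs u v a) fun k => ((lam k : ℤ) : K) := by
  rw [symbolicMatrix_eq, valueAt, W981.Aff.eval_afs]
  rfl

theorem pt_add (B : Matrix m n K) (A : Fin s → Matrix m n K) (x y : Fin s → K) :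
    W981.Loc.pt (W981.Loc.pt B A x) A y = W981.Loc.pt B A fun k => x k + y k := by
  rw [W981.Loc.pt, W981.Loc.pt, W981.Loc.pt, add_assoc, ← Finset.sum_add_distrib]
  congr 1
  exact Finset.sum_congr rfl fun k _ => (add_smul _ _ _).symm

theorem direction_cast (K : Type) [Field K] {h : ℕ} (y z : Fin h → ℕ) (k : Fin s) :
    ((direction y z k : ℤ) : K) =
      W981.Loc.gp (fun j => (y j : K)) (fun j => (z j : K)) k := by
  simp only [direction, W981.Loc.gp, Int.cast_sum, Int.cast_mul, Int.cast_prod, Int.cast_sub,
    Int.cast_natCast]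

theorem rank_eq_of_stuck [CharZero K] (B : Matrix m n K) (u : ι → m → K) (v : ι → n → K)
    (a : Matrix (Fin s) ι K) (c : ℕ) (hc : Fintype.card ι ≤ a.rank + c) (lam : Fin s → ℤ)
    (h : IsStuck (symbolicMatrix B u v a) v
      (testSet c (Fintype.card ι) (Fintype.card n) s) lam) :
    symbolicRank (symbolicMatrix B u v a) = (valueAt (symbolicMatrix B u v a) lam).rank := by
  classical
  rw [symbolicRank_eq, valueAt_eq]
  refine le_antisymm ?_ (W981.Aff.gaf_point_le B (coeffs u v a) _)
  have h1 : (W981.Aff.gaf B (coeffs u v a)).rank ≤ (W981.Aff.gaf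
      (W981.Loc.pt B (coeffs u v a) fun k => ((lam k : ℤ) : K)) (coeffs u v a)).rank := by
    obtain ⟨lam', -, h2⟩ := W981.Aff.gaf_special_point B (coeffs u v a)
    refine h2.trans ?_
    have h3 := W981.Aff.gaf_point_le (W981.Loc.pt B (coeffs u v a) fun k => ((lam k : ℤ) : K))
      (coeffs u v a) (fun k => (lam' k : K) - ((lam k : ℤ) : K))
    change (W981.Loc.pt (W981.Loc.pt B (coeffs u v a) fun k => ((lam k : ℤ) : K))
      (coeffs u v a) _).rank ≤ _ at h3
    rw [pt_add] at h3
    simp only [add_sub_cancel] at h3
    exact h3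
  refine h1.trans (W981.Loc.core0 _ (coeffs u v a) u v (fun k => a k) (fun k => rfl) (c := c) ?_
    fun y z hyz => ?_)
  · have h4 : finrank K (W981.Blk.WW (fun k => a k)) = a.rank := by
      rw [Matrix.rank_eq_finrank_span_row]
      rfl
    rw [h4]
    exact hc
  · have hb : ∀ j, y j ≤ (Fintype.card ι + 1) * (Fintype.card n * s) ∧
        z j ≤ (Fintype.card ι + 1) * (Fintype.card n * s) := by
      intro j
      have h5 : y j + z j ≤ ∑ j, (y j + z j) := Finset.single_le_sum
        (f := fun j => y j + z j) (fun _ _ => Nat.zero_le _) (Finset.mem_univ j)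
      omega
    have h6 := h (direction y z) (by
      refine Finset.mem_image.2 ⟨(fun j => ⟨y j, Nat.lt_succ_of_le (hb j).1⟩,
        fun j => ⟨z j, Nat.lt_succ_of_le (hb j).2⟩), Finset.mem_univ _, rfl⟩)
    rw [potential, potential, valueAt_eq, valueAt_eq] at h6
    have h7 : W981.Loc.pt B (coeffs u v a)
        (fun k => (((lam + direction y z : Fin s → ℤ) k : ℤ) : K)) =
        W981.Loc.pt (W981.Loc.pt B (coeffs u v a) fun k => ((lam k : ℤ) : K)) (coeffs u v a)
          (W981.Loc.gp (fun j => (y j : K)) fun j => (z j : K)) := by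
      rw [pt_add]
      congr 1
      funext k
      rw [Pi.add_apply, Int.cast_add, direction_cast]
    rw [h7] at h6
    exact h6

theorem potential_le (M : Matrix m n (MvPolynomial (Fin s) K)) (v : ι → n → K)
    (lam : Fin s → ℤ) : potential M v lam ≤ (Fintype.card ι + 1) * Fintype.card n := by
  rw [potential, add_mul, one_mul, add_comm]
  refine Nat.add_le_add ?_ (Matrix.rank_le_card_width _)
  refine (Finset.sum_le_card_nsmul _ _ (Fintype.card n) fun i _ =>
    Matrix.rank_le_card_width _).trans ?_
  rw [Finset.card_univ, smul_eq_mul]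

theorem stuck_iterate {M : Matrix m n (MvPolynomial (Fin s) K)} {v : ι → n → K}
    {D : Finset (Fin s → ℤ)} {next : (Fin s → ℤ) → (Fin s → ℤ)} (h : IsSearchStep M v D next)
    (t : ℕ) (lam : Fin s → ℤ) :
    IsStuck M v D (next^[t] lam) ∨ potential M v lam + t ≤ potential M v (next^[t] lam) := by
  induction t with
  | zero => exact Or.inr le_rfl
  | succ t ih =>
    rw [Function.iterate_succ_apply']
    rcases h (next^[t] lam) with ⟨d, -, -, hd2⟩ | ⟨h1, h2⟩
    · rcases ih with ih | ih
      · rcases h (next^[t] lam) with ⟨d', hd', hd'2, hd'3⟩ | ⟨h1, h2⟩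
        · have := ih d' hd'
          rw [hd'2] at hd'3
          omega
        · rw [h1]
          exact Or.inl h2
      · right
        omega
    · rw [h1]
      exact Or.inl h2

theorem stuck_end {M : Matrix m n (MvPolynomial (Fin s) K)} {v : ι → n → K}
    {D : Finset (Fin s → ℤ)} {next : (Fin s → ℤ) → (Fin s → ℤ)} (h : IsSearchStep M v D next)
    (lam : Fin s → ℤ) :
    IsStuck M v D (next^[(Fintype.card ι + 1) * Fintype.card n] lam) := by
  rcases stuck_iterate h ((Fintype.card ι + 1) * Fintype.card n) lam with h1 | h1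
  · exact h1
  · intro d _
    have h2 := potential_le M v (next^[(Fintype.card ι + 1) * Fintype.card n] lam)
    have h3 := potential_le M v (next^[(Fintype.card ι + 1) * Fintype.card n] lam + d)
    omega

theorem exists_step (M : Matrix m n (MvPolynomial (Fin s) K)) (v : ι → n → K)
    (D : Finset (Fin s → ℤ)) : ∃ next, IsSearchStep M v D next := by
  classical
  have h : ∀ lam, ∃ x, (∃ d ∈ D, x = lam + d ∧ potential M v lam < potential M v x) ∨
      (x = lam ∧ IsStuck M v D lam) := by
    intro lam
    by_cases hs : IsStuck M v D lam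
    · exact ⟨lam, Or.inr ⟨rfl, hs⟩⟩
    · rw [IsStuck] at hs
      push Not at hs
      obtain ⟨d, hd, hd2⟩ := hs
      exact ⟨lam + d, Or.inl ⟨d, hd, rfl, hd2⟩⟩
  choose next hnext using h
  exact ⟨next, hnext⟩

theorem abs_direction_le {h q : ℕ} {y z : Fin h → ℕ} (hy : ∀ j, y j ≤ q) (hz : ∀ j, z j ≤ q)
    (k : Fin s) : |direction y z k| ≤ ((h * q * (q + s) ^ s : ℕ) : ℤ) := by
  rw [direction]
  refine (Finset.abs_sum_le_sum_abs _ _).trans ?_
  have h1 : ∀ j : Fin h, |(y j : ℤ) * ∏ l ∈ Finset.univ.erase k, ((z j : ℤ) - ((l : ℕ) : ℤ))| ≤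
      ((q * (q + s) ^ s : ℕ) : ℤ) := by
    intro j
    rw [abs_mul, Finset.abs_prod]
    have h2 : ∏ l ∈ Finset.univ.erase k, |(z j : ℤ) - ((l : ℕ) : ℤ)| ≤ ((q + s : ℕ) : ℤ) ^ s := by
      calc ∏ l ∈ Finset.univ.erase k, |(z j : ℤ) - ((l : ℕ) : ℤ)|
          ≤ ∏ l ∈ Finset.univ.erase k, ((q + s : ℕ) : ℤ) := by
            refine Finset.prod_le_prod (fun _ _ => abs_nonneg _) fun l _ => ?_
            have := hz j
            have := l.2
            rw [abs_le]
            constructor <;> push_cast <;> omega
        _ = ((q + s : ℕ) : ℤ) ^ (s - 1) := by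
            rw [Finset.prod_const, Finset.card_erase_of_mem (Finset.mem_univ k),
              Finset.card_univ, Fintype.card_fin]
        _ ≤ _ := by
            refine pow_le_pow_right₀ ?_ (Nat.sub_le s 1)
            have := k.2
            push_cast
            omega
    have h3 : |((y j : ℕ) : ℤ)| ≤ (q : ℤ) := by
      rw [Nat.abs_cast]
      exact_mod_cast hy j
    calc |((y j : ℕ) : ℤ)| * ∏ l ∈ Finset.univ.erase k, |(z j : ℤ) - ((l : ℕ) : ℤ)|
        ≤ (q : ℤ) * ((q + s : ℕ) : ℤ) ^ s :=
          mul_le_mul h3 h2 (Finset.prod_nonneg fun _ _ => abs_nonneg _) (Nat.cast_nonneg q)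
      _ = _ := by push_cast; ring
  refine (Finset.sum_le_card_nsmul _ _ _ fun j _ => h1 j).trans ?_
  rw [Finset.card_univ, Fintype.card_fin, nsmul_eq_mul]
  push_cast
  rw [mul_assoc]

theorem abs_le_of_mem {h q : ℕ} {d : Fin s → ℤ} (hd : d ∈ directions s h q) (k : Fin s) :
    |d k| ≤ ((h * q * (q + s) ^ s : ℕ) : ℤ) := by
  obtain ⟨p, -, rfl⟩ := Finset.mem_image.1 hd
  exact abs_direction_le (fun j => Nat.lt_succ_iff.1 (p.1 j).2)
    (fun j => Nat.lt_succ_iff.1 (p.2 j).2) k

theorem abs_iterate {M : Matrix m n (MvPolynomial (Fin s) K)} {v : ι → n → K} {h q : ℕ}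
    {next : (Fin s → ℤ) → (Fin s → ℤ)} (hn : IsSearchStep M v (directions s h q) next)
    (t : ℕ) (k : Fin s) : |next^[t] 0 k| ≤ ((t * (h * q * (q + s) ^ s) : ℕ) : ℤ) := by
  induction t with
  | zero => simp
  | succ t ih =>
    rw [Function.iterate_succ_apply']
    rcases hn (next^[t] 0) with ⟨d, hd, hd2, -⟩ | ⟨h1, -⟩
    · rw [hd2, Pi.add_apply]
      refine (abs_add_le _ _).trans ((add_le_add ih (abs_le_of_mem hd k)).trans ?_)
      rw [← Nat.cast_add, ← Nat.succ_mul]
    · rw [h1]
      refine ih.trans ?_
      exact_mod_cast Nat.mul_le_mul_right _ (Nat.le_succ t)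

theorem card_directions (s h q : ℕ) : (directions s h q).card ≤ (q + 1) ^ (2 * h) := by
  refine Finset.card_image_le.trans ?_
  rw [Finset.card_univ, Fintype.card_prod, Fintype.card_fun, Fintype.card_fin, Fintype.card_fin,
    two_mul, pow_add]

theorem det_iff [DecidableEq n] (M : Matrix n n (MvPolynomial (Fin s) K)) (lam : Fin s → ℤ)
    (h : symbolicRank M = (valueAt M lam).rank) : M.det = 0 ↔ (valueAt M lam).det = 0 := by
  have h1 : ∀ {F : Type} [Field F] (N : Matrix n n F), N.det = 0 ↔ N.rank ≠ Fintype.card n := by
    intro F _ N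
    rw [← not_iff_not, not_not]
    constructor
    · intro h
      exact Matrix.rank_of_det_ne_zero h
    · intro h h0
      obtain ⟨x, hx, hx2⟩ := Matrix.exists_mulVec_eq_zero_iff.2 h0
      have h2 := W981.Loc.rank_add_ker N
      have h3 : finrank F (LinearMap.ker N.mulVecLin) = 0 := by omega
      rw [Submodule.finrank_eq_zero] at h3
      have h4 : x ∈ LinearMap.ker N.mulVecLin := hx2
      rw [h3] at h4
      exact hx ((Submodule.mem_bot F).1 h4)
  rw [h1 (valueAt M lam), ← h, symbolicRank, ← h1, ← RingHom.mapMatrix_apply, ← RingHom.map_det,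
    FaithfulSMul.algebraMap_eq_zero_iff]

end proofs

/-- **Result.**  Let `K` be a field of characteristic zero and let
`M(x) = B + ∑ i, (∑ k, a k i * x_k) u_i v_iᵀ` be a matrix with `n` columns, where the number `N` of
the forms `∑ k, a k i * x_k` is at most `rank a + c`.  Let `D = testSet c N n s`.

(1) `D` has at most `((N + 1) n s + 1) ^ (2 (16 c + 3))` elements.

(2) If no direction of `D` increases the potential at an integer point `λ` then the rank of `M(λ)`
is the rank of `M` over `K(x)`.

(3) Let `next` be a step of the local search.  The point `next^[T] 0` which is reached after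
`T = (N + 1) n` steps has the property that the rank of the value of `M` is the rank of `M`, and its
coordinates are bounded by `T (16 c + 3) q (q + s) ^ s` with `q = (N + 1) n s`.

(4) If `M` is square then `det M = 0` if and only if `det M(λ) = 0` for the point `λ` of (3). -/
theorem result {K n ι : Type} [Field K] [CharZero K] [Fintype n] [Fintype ι] {s : ℕ}
    (v : ι → n → K) (a : Matrix (Fin s) ι K) (c : ℕ) (hc : Fintype.card ι ≤ a.rank + c) :
    (testSet c (Fintype.card ι) (Fintype.card n) s).card ≤
      ((Fintype.card ι + 1) * (Fintype.card n * s) + 1) ^ (2 * (16 * c + 3)) ∧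
    (∀ {m : Type} [Fintype m] (B : Matrix m n K) (u : ι → m → K) (lam : Fin s → ℤ),
      IsStuck (symbolicMatrix B u v a) v (testSet c (Fintype.card ι) (Fintype.card n) s) lam →
      (valueAt (symbolicMatrix B u v a) lam).rank = symbolicRank (symbolicMatrix B u v a)) ∧
    (∀ {m : Type} [Fintype m] (B : Matrix m n K) (u : ι → m → K),
      (∃ next, IsSearchStep (symbolicMatrix B u v a) v
        (testSet c (Fintype.card ι) (Fintype.card n) s) next) ∧
      ∀ next, IsSearchStep (symbolicMatrix B u v a) v
        (testSet c (Fintype.card ι) (Fintype.card n) s) next →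
        (valueAt (symbolicMatrix B u v a)
          (next^[(Fintype.card ι + 1) * Fintype.card n] 0)).rank =
            symbolicRank (symbolicMatrix B u v a) ∧
        ∀ k, |next^[(Fintype.card ι + 1) * Fintype.card n] 0 k| ≤
          (((Fintype.card ι + 1) * Fintype.card n *
            ((16 * c + 3) * ((Fintype.card ι + 1) * (Fintype.card n * s)) *
              ((Fintype.card ι + 1) * (Fintype.card n * s) + s) ^ s) : ℕ) : ℤ)) ∧
    (∀ [DecidableEq n] (B : Matrix n n K) (u : ι → n → K) (next : (Fin s → ℤ) → (Fin s → ℤ)),
      IsSearchStep (symbolicMatrix B u v a) v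
        (testSet c (Fintype.card ι) (Fintype.card n) s) next →
      ((symbolicMatrix B u v a).det = 0 ↔ (valueAt (symbolicMatrix B u v a)
        (next^[(Fintype.card ι + 1) * Fintype.card n] 0)).det = 0)) := by
  refine ⟨card_directions _ _ _, fun B u lam h => (rank_eq_of_stuck B u v a c hc lam h).symm,
    fun B u => ⟨exists_step _ _ _, fun next h => ⟨?_, fun k => abs_iterate h _ k⟩⟩, ?_⟩
  · exact (rank_eq_of_stuck B u v a c hc _ (stuck_end h 0)).symm
  · intro _ B u next h
    exact det_iff _ _ (rank_eq_of_stuck B u v a c hc _ (stuck_end h 0))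

end Pool.Agent.Results.MP_e2be99_lc.AlmostIndependentForms
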