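import Pool.Agent.W945.Rk.Bound2

/-!
# Subexponential identity test for read-`k` oblivious programs of polynomial width

We consider oblivious algebraic branching programs of arbitrary width `w` whose layers read the
variables in a known order `ρ 0, …, ρ (L - 1)` (`Program`). If every variable is read at most `k`
times, Anderson, Forbes, Saptharishi, Shpilka and Volk (CCC 2016) gave a deterministic identity test
in time `2 ^ Õ(n ^ (1 - 1 / 2 ^ (k - 1)))`. We give explicit sets of integer points with
`(n w d) ^ O(n ^ (1 - 1 / k + ε))` elements, for every `ε > 0`; with four colours the bound is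
`(n w d) ^ (2 ^ O(k) n ^ (1 - 1 / (2 k + 2)) log² n)`, which is subexponential for all
`k ≤ c √(log n)`. The points also detect every divisor of a product of `F` nonzero programs, and
`h` variables may be read arbitrarily often, at the price of a factor `(F d L + 1) ^ h`.

*The construction.* The reads of a set `U` of `m` variables are divided into a constant number of
blocks of consecutive reads. By the second moment method the blocks have a colouring with `s + 1`
colours such that for every colour at least `m / (2 (s + 1) ^ k)` variables have all their reads in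
blocks of this colour; the first such colouring (in the list of all colourings) is used. If all the
other variables are constants, the polynomial is a sum of few products of polynomials in the
variables of the classes. The classes are treated recursively with the same coordinates, and they
are merged by a new coordinate for every class, with exponents `∑ κ ^ i e_i mod p`. Afterwards the
other variables are treated. A set of `m` variables needs `O(m ^ (1 - 1 / k + ε))` coordinates.
-/

namespace Pool.Agent.Results.MP_e2be99_lc.ReadKPrograms

open Pool.Agent.W945.Rk MvPolynomial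

/-- **Explicit hitting sets for read-`k` oblivious programs of arbitrary width, in a known order.**

(1) The explicit integer points hit every divisor of a product of at most `F` nonzero polynomials
computed by oblivious programs of width `w` which read the variables in the order `ρ`, with entries
of degree at most `d`, over every field of characteristic zero.

(2) The coordinates of the points have at most `Y ^ O(log² n)` bits,
`Y = (n + 2) (F + 2) (w + 2) (d + 2) (L + 2)`.

(3) The number of points is at most `Y ^ (C n ^ (1 - 1 / k + ε))`, times `(F d L + 1) ^ h` if `h`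
variables are read more than `k` times.

(4) With four colours, it is at most `Y ^ (2 ^ (10 k + 16) n ^ (1 - 1 / (2 k + 2)) (1 + log₂ n) ^ 2)`
times `(F d L + 1) ^ h`, for all `k`. -/
theorem result :
    (∀ k s n F w d L : ℕ, ∀ ρ : ℕ → Fin n, 1 ≤ k → 1 ≤ F →
      ∀ (K : Type) [Field K] [CharZero K] (f : MvPolynomial (Fin n) K),
        Divides K F w d L ρ f →
          ∃ x ∈ points k s F w d L ρ, eval (fun u => (x u : K)) f ≠ 0) ∧
    (∀ k s n F w d L : ℕ, ∀ ρ : ℕ → Fin n, 1 ≤ k → 1 ≤ n → 1 ≤ F → 1 ≤ w →
      ∀ x ∈ points k s F w d L ρ, ∀ u,
        (x u).natAbs ≤ 2 ^ (YY n F w d L ^ (CC k s * (1 + Nat.log 2 n) ^ 2))) ∧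
    (∀ k : ℕ, 1 ≤ k → ∀ ε : ℝ, 0 < ε → ∃ s C : ℕ,
      ∀ (n F w d L : ℕ) (ρ : ℕ → Fin n), 1 ≤ n → 1 ≤ F → 1 ≤ w →
        ((points k s F w d L ρ).card : ℝ) ≤
          (YY n F w d L : ℝ) ^ (C * (n : ℝ) ^ (1 - 1 / (k : ℝ) + ε)) *
            (F * (d * L) + 1) ^ (heavy k L ρ).card) ∧
    (∀ (k n F w d L : ℕ) (ρ : ℕ → Fin n), 1 ≤ k → 1 ≤ n → 1 ≤ F → 1 ≤ w →
      ((points k 3 F w d L ρ).card : ℝ) ≤
        (YY n F w d L : ℝ) ^ (2 ^ (10 * k + 16) * (n : ℝ) ^ (1 - 1 / (2 * (k : ℝ) + 2)) *
          (1 + Nat.log 2 n) ^ 2) * (F * (d * L) + 1) ^ (heavy k L ρ).card) := by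
  refine ⟨?_, ?_, ?_, ?_⟩
  · intro k s n F w d L ρ hk hF K _ _ f hf
    exact hits hk hF hf
  · intro k s n F w d L ρ hk hn hF hw x hx u
    have : NeZero w := ⟨by omega⟩
    exact abs_le_of_mem hk hF hn hx u
  · intro k hk ε hε
    exact points_card_asymp hk hε
  · intro k n F w d L ρ hk hn hF hw
    exact points_card_four hk hn hF hw

end Pool.Agent.Results.MP_e2be99_lc.ReadKPrograms
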