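import Mathlib
import Pool.Agent.W936.XN.Run
import Pool.Agent.W936.LC.Class

/-!
# Polynomial-time identity testing of formulas with arbitrary gates

We give a deterministic identity test with polynomially many evaluations (in the number of
variables, the formal degree, the size and the sparsity `s` of the leaves) for formulas of any size
and depth whose gates are *arbitrary* polynomials in two arguments. So a subexpression may be used
any number of times by the gate above it, as in `((x₁² + x₂)² + x₃ (x₁² + x₂))³ + …`; written out as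
an arithmetic expression, such a formula contains a variable an unbounded number of times. Every
variable occurs in at most `w` leaves; the leaves are polynomials with at most `s` monomials, or
oblivious programs of width `w` over such polynomials, nested to constant depth. More generally, the
test applies to

* polynomials in `w` such formulas,
* sums of any number of such polynomials whose sets of variables form a thin hypergraph, for
  instance if any `r` variables occur together in at most `κ` of them (`r`, `κ` constants),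
* expressions of any depth over such sums, with products, and with arbitrary gates whose arguments
  share at most `w` variables (`Net`).

The test is not blackbox: it first computes an origin `σ` with nonzero coordinates at which no
partial derivative of a gate with respect to its arguments vanishes, unless it is the zero
polynomial (`Run`). The set of points `σ_i p_i^u + ∑_l y_l ∏_{k ≠ i} (z_l - k)` with polynomially
many seeds `u, y, z` then hits all polynomials of the class.

The proof: the multiplicative part of the points hits sparse polynomials, as `σ` has no coordinate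
`0`, and contains the point `σ` itself (`u = 0`), so that no nonzero partial derivative of a gate
belongs to one of the ideals of the generator. The derivatives of the value of a formula in the
variables read for the last time are transported through the gates, whatever their degrees
(`Pool.Agent.H530R2.Tre1`-`Tre4`), over the field of rational functions in the parameter `u`. For
thin sums: for all but finitely many constants `a` the gates remain regular at `σ` when `a` is
substituted for a variable `x`; the difference of two such substitutions is a sum over the link of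
`x`, of smaller depth; if it vanishes for almost all pairs of constants, the sum does not depend on
`x`; otherwise it is hit, and one more seed makes `x` free (`Pool.Agent.W936.XN.Clo`). At a generic
point of the set of values of the generator, on a curve through this point, the values of the
arguments of a gate have their poles at different places, so that they are algebraically
independent over the functions of the bag (`Pool.Agent.H530R2.Rat5`, `Pool.Agent.W936.XN.Gat`).
-/

set_option autoImplicit false

namespace Pool.Agent.Results.MP_e2be99_lc.SharedSubexpressions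

open MvPolynomial

open Pool.Agent.Results.MP_e2be99_lc.FormulasOverSparse (Run points Prog)

open Pool.Agent.W936.XN (Thin Net)

/-- Expressions in `n` variables: the leaves are polynomials, a gate computes `γ(a, b)` from the
values `a`, `b` of its arguments, where `γ` is any polynomial in two variables (which may be
different for every gate). -/
inductive Expr (n : ℕ) : Type
  | leaf (g : MvPolynomial (Fin n) ℂ) : Expr n
  | gate (γ : MvPolynomial (Fin 2) ℂ) (a b : Expr n) : Expr n

variable {n : ℕ}

/-- the polynomial computed by an expression -/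
noncomputable def Expr.value : Expr n → MvPolynomial (Fin n) ℂ
  | .leaf g => g
  | .gate γ a b => aeval ![a.value, b.value] γ

open Classical in
/-- the number of leaves in which the variable `x` occurs -/
noncomputable def Expr.reads : Expr n → Fin n → ℕ
  | .leaf g, x => if x ∈ g.vars then 1 else 0
  | .gate _ a b, x => a.reads x + b.reads x

/-- all leaves have the property `L` -/
def Expr.Leaves (L : MvPolynomial (Fin n) ℂ → Prop) : Expr n → Prop
  | .leaf g => L g
  | .gate _ a b => a.Leaves L ∧ b.Leaves L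

/-- the number of leaves -/
def Expr.size : Expr n → ℕ
  | .leaf _ => 1
  | .gate _ a b => a.size + b.size

/-- The formal degree: it is the total degree for a leaf; a gate `γ(a, b)` has the maximum of the
formal degrees of `a` and `b`, and of `i deg a + j deg b` for the monomials `a ^ i b ^ j` of `γ`. -/
noncomputable def Expr.degree : Expr n → ℕ
  | .leaf g => g.totalDegree
  | .gate γ a b => max (max a.degree b.degree)
      (γ.support.sup fun e => e 0 * a.degree + e 1 * b.degree)

/-- the partial derivatives of the gates with respect to their arguments (as polynomials in the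
variables), those of subexpressions first -/
noncomputable def Expr.partials : Expr n → List (MvPolynomial (Fin n) ℂ)
  | .leaf _ => []
  | .gate γ a b => a.partials ++ b.partials ++
      [aeval ![a.value, b.value] (pderiv 0 γ), aeval ![a.value, b.value] (pderiv 1 γ)]

/-- the polynomials tested one after the other -/
noncomputable def tests (l : List (Expr n)) : List (MvPolynomial (Fin n) ℂ) :=
  l.flatMap Expr.partials

/-- a polynomial in `w` expressions of the list `l` -/
def Factor (l : List (Expr n)) (w : ℕ) (g : MvPolynomial (Fin n) ℂ) : Prop :=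
  ∃ (E : Fin w → Expr n) (P : MvPolynomial (Fin w) ℂ),
    (∀ i, E i ∈ l) ∧ g = aeval (fun i => (E i).value) P

/-- sums of any number of members of `Factor l w` whose sets of variables form a thin
hypergraph -/
def ThinSum (l : List (Expr n)) (w κ r : ℕ) (f : MvPolynomial (Fin n) ℂ) : Prop :=
  ∃ (N : ℕ) (g : Fin N → MvPolynomial (Fin n) ℂ), (∀ i, Factor l w (g i)) ∧
    Thin w κ r Finset.univ (fun i => (g i).vars) ∧ f = ∑ i, g i

open Pool.Agent.H530R2 Pool.Agent.W936.RO Pool.Agent.W936.WB Pool.Agent.W936.XN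
  Pool.Agent.W936.LC

open Pool.Agent.Results.MP_e2be99_lc.FormulasOverSparse (bd prog_mem)

/-- translation to the formulas of `Pool.Agent.H530R2` -/
noncomputable def toTr : Expr n → Tr (RatFunc ℂ) n
  | .leaf g => .leaf (sext g)
  | .gate γ a b => .gate (map (algebraMap ℂ (RatFunc ℂ)) γ) (toTr a) (toTr b)

theorem ext_gate (γ : MvPolynomial (Fin 2) ℂ) (a b : MvPolynomial (Fin n) ℂ) :
    sext (aeval ![a, b] γ) = aeval ![sext a, sext b] (map (algebraMap ℂ (RatFunc ℂ)) γ) := by
  rw [ext_aeval]
  congr 2
  funext i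
  fin_cases i <;> rfl

theorem toTr_val (E : Expr n) : (toTr E).val = sext E.value := by
  induction E with
  | leaf g => rfl
  | gate γ a b iha ihb => rw [toTr, Tr.val, Expr.value, ext_gate, iha, ihb]

theorem toTr_occ (E : Expr n) (x : Fin n) : (toTr E).occ x = E.reads x := by
  induction E with
  | leaf g => simp only [toTr, Tr.occ, Expr.reads, ext_vars]
  | gate γ a b iha ihb => simp only [toTr, Tr.occ, Expr.reads, iha, ihb]

theorem toTr_partials (E : Expr n) : (toTr E).gps = E.partials.map sext := by
  induction E with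
  | leaf g => rfl
  | gate γ a b iha ihb =>
    simp only [toTr, Tr.gps, Expr.partials, iha, ihb, toTr_val, List.map_append, List.map_cons,
      List.map_nil, pderiv_map, ext_gate]

/-- leaves of the modified formulas -/
def LeafP (w s D : ℕ) (g : MvPolynomial (Fin n) ℂ) : Prop :=
  Prog w s D g ∨ (∃ c, g = C c) ∨ (1 ≤ w ∧ ∃ i, g = X i)

theorem prog_X' {w D : ℕ} (hw : 1 ≤ w) (i : Fin n) :
    Prog w 1 D (X i : MvPolynomial (Fin n) ℂ) := by
  induction D with
  | zero =>
    refine .sparse ?_ (Or.inl ?_)
    · have h1 : (X i : MvPolynomial (Fin n) ℂ).support = {Finsupp.single i 1} := support_X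
      rw [h1, Finset.card_singleton]
    · rw [vars_X, Finset.card_singleton]
  | succ D ih =>
    have h1 : (X i : MvPolynomial (Fin n) ℂ) =
        aeval (FormulasOverSparse.contents (fun _ : Fin 1 => (1 : ℂ))
          (fun _ => Matrix.of fun _ _ => X i) 1) (X 0 : MvPolynomial (Fin 1) ℂ) := by
      rw [aeval_X]
      simp [FormulasOverSparse.contents, Matrix.vecMul, dotProduct]
    rw [h1]
    refine .program _ _ 1 _ hw (fun x => ?_) (fun _ _ _ => ih)
    refine le_trans (Finset.card_filter_le _ _) ?_
    rw [Finset.card_range]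
    exact hw

/-- the condition on the expressions -/
def Good (w s D : ℕ) (E : Expr n) : Prop := E.Leaves (LeafP w s D) ∧ ∀ x, E.reads x ≤ w

/-- the gates are regular at the origin -/
def Regular (σ : Fin n → ℂ) (E : Expr n) : Prop := ∀ g ∈ E.partials, g ≠ 0 → eval σ g ≠ 0

theorem toTr_lv {w s D : ℕ} {𝔎 : Fam (RatFunc ℂ)} {σ : ℕ}
    (h𝔎 : ∀ f : MvPolynomial (Fin n) ℂ, f.support.card ≤ s + 1 → sext f ∈ 𝔎.K σ n 1)
    (E : Expr n) (h : E.Leaves (LeafP w s D)) :
    (toTr E).Lv ((up 𝔎 D).K σ n (bd w D + (up 𝔎 D).c0)) := by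
  induction E with
  | leaf g =>
    show sext g ∈ _
    rcases h with h | ⟨c, rfl⟩ | ⟨hw, i, rfl⟩
    · exact (up 𝔎 D).mono (Nat.le_add_right _ _)
        (prog_mem (k := 0) 𝔎 σ (fun f hf => h𝔎 f (hf.trans (Nat.le_succ s))) h).1
    · have h1 : sext (C c : MvPolynomial (Fin n) ℂ) = C (algebraMap ℂ (RatFunc ℂ) c) := map_C _ _
      rw [h1]
      exact (up 𝔎 D).const (Nat.le_add_left _ _) _
    · exact (up 𝔎 D).mono (Nat.le_add_right _ _)
        (prog_mem (k := 0) 𝔎 σ (fun f hf => h𝔎 f (hf.trans (Nat.le_add_left 1 s)))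
          (prog_X' (D := D) hw i)).1
  | gate γ a b iha ihb => exact ⟨iha h.1, ihb h.2⟩

theorem gps_ne {σ : Fin n → ℂ} {N : ℕ} {E : Expr n} (h : Regular σ E) :
    ∀ g ∈ (toTr E).gps, g ≠ 0 → eval (rpt (sbase σ N)) g ≠ 0 := by
  intro g hg hg0
  rw [toTr_partials] at hg
  obtain ⟨g', hg', rfl⟩ := List.mem_map.1 hg
  exact eval_rpt_ne (sbase_ne_of_eval (h g' hg' fun hc => hg0 (by rw [hc, map_zero])))

/-- polynomials in `q` expressions are hit -/
theorem expr_hit (w D q : ℕ) : ∃ A m : ℕ, ∀ n s N : ℕ, (s + 3) ^ A ≤ N → ∀ σ : Fin n → ℂ,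
    (∀ i, σ i ≠ 0) → ∀ E : Fin q → Expr n, (∀ i, Good w s D (E i) ∧ Regular σ (E i)) →
    ∀ f ∈ Algebra.adjoin (RatFunc ℂ) (Set.range fun i => sext (E i).value), f ≠ 0 →
    f ∉ (rVan (sbase σ N)).I m ∅ := by
  classical
  by_contra hcon
  push Not at hcon
  choose n_ s_ N_ hN σ_ hσ E_ hE f_ hf_ hf0 hev using fun k => hcon k k
  have hβ : ∀ k (h : MvPolynomial (Fin (n_ k)) ℂ), h ≠ 0 →
      h.support.card ≤ (s_ k + 1 + 2) ^ k → aeval (sbase (σ_ k) (N_ k)) h ≠ 0 :=
    fun k h h0 hs => sbase_ne (hσ k) h0 (hs.trans (hN k))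
  set 𝔎 : Fam (RatFunc ℂ) := bfam n_ (fun k => s_ k + 1) (fun k => sbase (σ_ k) (N_ k)) hβ
    with h𝔎
  obtain ⟨m, hm⟩ := poly_hit4 (F := RatFunc ℂ) (up 𝔎 D) w q (bd w D + (up 𝔎 D).c0)
  have hmem : ∀ f : MvPolynomial (Fin (n_ m)) ℂ, f.support.card ≤ s_ m + 1 →
      sext f ∈ 𝔎.K m (n_ m) 1 := fun f hf => bfam_mem hβ m hf
  refine hm (n_ m) m (rpt (sbase (σ_ m) (N_ m))) (bfam_ok hβ D m) (fun i => toTr (E_ m i))
    (fun i => toTr_lv hmem _ (hE m i).1.1) (fun i x => ?_) (fun i => gps_ne (hE m i).2) (f_ m) ?_
    (hf0 m) (hev m)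
  · rw [toTr_occ]
    exact (hE m i).1.2 x
  · refine Algebra.adjoin_mono ?_ (hf_ m)
    rintro _ ⟨i, rfl⟩
    exact ⟨i, toTr_val _⟩

theorem good_const {w s D : ℕ} (c : ℂ) : Good w s D (.leaf (C c) : Expr n) := by
  refine ⟨Or.inr (Or.inl ⟨c, rfl⟩), fun x => ?_⟩
  rw [Expr.reads, vars_C, if_neg (Finset.notMem_empty x)]
  exact Nat.zero_le _

theorem good_X {w s D : ℕ} (hw : 1 ≤ w) (i : Fin n) : Good w s D (.leaf (X i) : Expr n) := by
  refine ⟨Or.inr (Or.inr ⟨hw, i, rfl⟩), fun x => ?_⟩
  rw [Expr.reads]
  split_ifs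
  · exact hw
  · exact Nat.zero_le _

theorem regular_leaf (σ : Fin n → ℂ) (g : MvPolynomial (Fin n) ℂ) : Regular σ (.leaf g) :=
  fun _ hg => absurd hg List.not_mem_nil

/-- polynomials in at most `q` expressions are hit -/
theorem expr_hit' (w D q : ℕ) : ∃ A m : ℕ, ∀ n s N : ℕ, (s + 3) ^ A ≤ N → ∀ σ : Fin n → ℂ,
    (∀ i, σ i ≠ 0) → ∀ (ι : Type) [Fintype ι] (E : ι → Expr n), Fintype.card ι ≤ q →
    (∀ i, Good w s D (E i) ∧ Regular σ (E i)) →
    ∀ f ∈ Algebra.adjoin (RatFunc ℂ) (Set.range fun i => sext (E i).value), f ≠ 0 →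
    f ∉ (rVan (sbase σ N)).I m ∅ := by
  classical
  obtain ⟨A, m, hm⟩ := expr_hit w D q
  refine ⟨A, m, fun n s N hN σ hσ ι _ E hq hE f hf hf0 => ?_⟩
  set e := Fintype.equivFin ι with he
  refine hm n s N hN σ hσ (fun j => if h : j.1 < Fintype.card ι then E (e.symm ⟨j.1, h⟩)
    else .leaf (C 0)) (fun j => ?_) f (Algebra.adjoin_mono ?_ hf) hf0
  · by_cases h : j.1 < Fintype.card ι
    · rw [dif_pos h]
      exact hE _
    · rw [dif_neg h]
      exact ⟨good_const 0, regular_leaf σ _⟩
  · rintro _ ⟨i, rfl⟩
    refine ⟨⟨(e i).1, (e i).2.trans_le hq⟩, ?_⟩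
    simp only [(e i).2, dif_pos]
    rw [Fin.eta, e.symm_apply_apply]

/-- substitution of a constant in the leaves -/
noncomputable def esbt (x : Fin n) (a : ℂ) : Expr n → Expr n
  | .leaf g => .leaf (sbt x a g)
  | .gate γ p q => .gate γ (esbt x a p) (esbt x a q)

theorem sbt_gate (x : Fin n) (a : ℂ) (γ : MvPolynomial (Fin 2) ℂ) (p q : MvPolynomial (Fin n) ℂ) :
    sbt x a (aeval ![p, q] γ) = aeval ![sbt x a p, sbt x a q] γ := by
  rw [comp_aeval_apply]
  congr 2
  funext i
  fin_cases i <;> rfl

theorem esbt_value (x : Fin n) (a : ℂ) (E : Expr n) : (esbt x a E).value = sbt x a E.value := by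
  induction E with
  | leaf g => rfl
  | gate γ p q ihp ihq => rw [esbt, Expr.value, Expr.value, sbt_gate, ihp, ihq]

theorem esbt_partials (x : Fin n) (a : ℂ) (E : Expr n) :
    (esbt x a E).partials = E.partials.map (sbt x a) := by
  induction E with
  | leaf g => rfl
  | gate γ p q ihp ihq =>
    simp only [esbt, Expr.partials, ihp, ihq, esbt_value, List.map_append, List.map_cons,
      List.map_nil, sbt_gate]

theorem esbt_reads (x : Fin n) (a : ℂ) (E : Expr n) (i : Fin n) :
    (esbt x a E).reads i ≤ E.reads i := by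
  classical
  induction E with
  | leaf g =>
    simp only [esbt, Expr.reads]
    by_cases h : i ∈ (sbt x a g).vars
    · rw [if_pos h, if_pos (vars_sbt x a g h).2]
    · rw [if_neg h]
      exact Nat.zero_le _
  | gate γ p q ihp ihq => exact Nat.add_le_add ihp ihq

theorem prog_iff {w s D : ℕ} {g : MvPolynomial (Fin n) ℂ} : Prog w s D g ↔
    Pool.Agent.Results.MP_c2aa42_lc.SumsOfSparseFormulas.Prog w s D g := by
  have hc : ∀ {u : ℕ} (c₀ : Fin u → ℂ) (M : ℕ → Matrix (Fin u) (Fin u) (MvPolynomial (Fin n) ℂ))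
      (b : ℕ), FormulasOverSparse.contents c₀ M b =
        Pool.Agent.Results.MP_c2aa42_lc.SumsOfSparseFormulas.contents c₀ M b := by
    intro u c₀ M b
    induction b with
    | zero => rfl
    | succ b ih =>
      rw [FormulasOverSparse.contents, ih]
      rfl
  constructor
  · intro h
    induction h with
    | sparse h1 h2 => exact .sparse h1 h2
    | program c₀ M R P h1 h2 _ ih =>
      rw [hc]
      exact .program c₀ M R P h1 h2 ih
  · intro h
    induction h with
    | sparse h1 h2 => exact .sparse h1 h2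
    | program c₀ M R P h1 h2 _ ih =>
      rw [← hc]
      exact .program c₀ M R P h1 h2 ih

theorem esbt_leaves {w s D : ℕ} (x : Fin n) (a : ℂ) (E : Expr n)
    (h : E.Leaves (Prog w s D)) : (esbt x a E).Leaves (Prog w s D) := by
  induction E with
  | leaf g => exact prog_iff.2 (prog_sbt x a (prog_iff.1 h))
  | gate γ p q ihp ihq => exact ⟨ihp h.1, ihq h.2⟩

/-- polynomials in `w` expressions whose gates are regular at the origin -/
def Gd (w s D : ℕ) (σ : Fin n → ℂ) (g : MvPolynomial (Fin n) ℂ) : Prop :=
  ∃ (E : Fin w → Expr n) (P : MvPolynomial (Fin w) ℂ),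
    (∀ i, (E i).Leaves (Prog w s D) ∧ (∀ x, (E i).reads x ≤ w) ∧ Regular σ (E i)) ∧
      g = aeval (fun i => (E i).value) P

theorem gd_sbt {w s D : ℕ} {σ : Fin n → ℂ} {g : MvPolynomial (Fin n) ℂ} (h : Gd w s D σ g)
    (x : Fin n) : {a : ℂ | ¬ Gd w s D σ (sbt x a g)}.Finite := by
  classical
  obtain ⟨E, P, hE, rfl⟩ := h
  have h1 : ∀ i, {a : ℂ | ¬ Regular σ (esbt x a (E i))}.Finite := by
    intro i
    have h2 : ∀ h ∈ (E i).partials.toFinset,
        {a : ℂ | h ≠ 0 ∧ eval (Function.update σ x a) h = 0}.Finite := by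
      intro h hh
      by_cases h0 : h = 0
      · refine (Set.finite_empty).subset fun a ha => ?_
        exact absurd h0 ha.1
      · exact (fin_eval x ((hE i).2.2 h (List.mem_toFinset.1 hh) h0)).subset fun a ha => ha.2
    refine ((E i).partials.toFinset.finite_toSet.biUnion fun h hh =>
      h2 h (Finset.mem_coe.1 hh)).subset fun a ha => ?_
    by_contra hcon
    apply ha
    intro g hg hg0
    rw [esbt_partials] at hg
    obtain ⟨h, hh, rfl⟩ := List.mem_map.1 hg
    rw [eval_sbt]
    intro hc
    apply hcon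
    refine Set.mem_biUnion (Finset.mem_coe.2 (List.mem_toFinset.2 hh)) ⟨?_, hc⟩
    rintro rfl
    exact hg0 (map_zero _)
  refine (Set.finite_iUnion h1).subset fun a ha => ?_
  by_contra hcon
  apply ha
  refine ⟨fun i => esbt x a (E i), P, fun i => ⟨esbt_leaves x a _ (hE i).1, fun y =>
    (esbt_reads x a _ y).trans ((hE i).2.1 y), ?_⟩, ?_⟩
  · by_contra hc
    exact hcon (Set.mem_iUnion.2 ⟨i, hc⟩)
  · rw [comp_aeval_apply]
    congr 2
    funext i
    exact (esbt_value x a _).symm

theorem Leaves.mono {L L' : MvPolynomial (Fin n) ℂ → Prop} (h : ∀ g, L g → L' g)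
    {E : Expr n} (hE : E.Leaves L) : E.Leaves L' := by
  induction E with
  | leaf g => exact h g hE
  | gate γ a b iha ihb => exact ⟨iha hE.1, ihb hE.2⟩

/-- sums of boundedly many members of `Gd` -/
theorem gd_hit (w D K : ℕ) : ∃ A m : ℕ, ∀ n s N : ℕ, (s + 3) ^ A ≤ N → ∀ σ : Fin n → ℂ,
    (∀ i, σ i ≠ 0) → ∀ (I : Type) (J : Finset I) (c : I → ℂ) (g : I → MvPolynomial (Fin n) ℂ),
    J.card ≤ K → (∀ i ∈ J, Gd w s D σ (g i)) →
    HitE (sbase σ N) m w (∑ i ∈ J, C (c i) * g i) := by
  classical
  obtain ⟨A, m, hm⟩ := expr_hit' w D (K * w + w)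
  refine ⟨A, m, fun n s N hN σ hσ I J c g hJ hg S hS e he hne => ?_⟩
  choose E P hE hgE using fun i : J => hg i.1 i.2
  have hw : ∀ i : S, 1 ≤ w := fun i => (Finset.card_pos.2 ⟨i.1, i.2⟩).trans_le hS
  refine hm n s N hN σ hσ ((J × Fin w) ⊕ S)
    (Sum.elim (fun p => E p.1 p.2) (fun i => .leaf (X i.1))) ?_ ?_ _ ?_ hne
  · rw [Fintype.card_sum, Fintype.card_prod, Fintype.card_fin, Fintype.card_coe,
      Fintype.card_coe]
    exact Nat.add_le_add (Nat.mul_le_mul_right _ hJ) hS
  · rintro (⟨i, j⟩ | i)
    · exact ⟨⟨Leaves.mono (fun _ h => Or.inl h) (hE i j).1, (hE i j).2.1⟩, (hE i j).2.2⟩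
    · exact ⟨good_X (hw i) i.1, regular_leaf σ _⟩
  · refine Subalgebra.add_mem _ ?_ ?_
    · rw [map_sum]
      refine Subalgebra.sum_mem _ fun i hi => ?_
      rw [map_mul]
      refine Subalgebra.mul_mem _ ?_ ?_
      · rw [map_C]
        exact Subalgebra.algebraMap_mem _ _
      · have h1 := hgE ⟨i, hi⟩
        rw [show g i = aeval (fun j => (E ⟨i, hi⟩ j).value) (P ⟨i, hi⟩) from h1, ext_aeval]
        have h2 : aeval (fun j => sext (E ⟨i, hi⟩ j).value)
            (map (algebraMap ℂ (RatFunc ℂ)) (P ⟨i, hi⟩)) ∈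
            Algebra.adjoin (RatFunc ℂ) (Set.range fun j => sext (E ⟨i, hi⟩ j).value) := by
          rw [Algebra.adjoin_range_eq_range_aeval]
          exact ⟨_, rfl⟩
        refine Algebra.adjoin_mono ?_ h2
        rintro _ ⟨j, rfl⟩
        exact ⟨Sum.inl (⟨i, hi⟩, j), rfl⟩
    · have he' : e ∈ Algebra.adjoin (RatFunc ℂ)
          (X '' (S : Set (Fin n)) : Set (MvPolynomial (Fin n) (RatFunc ℂ))) := he
      refine Algebra.adjoin_mono ?_ he'
      rintro _ ⟨i, hi, rfl⟩
      refine ⟨Sum.inr ⟨i, Finset.mem_coe.1 hi⟩, ?_⟩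
      show sext (X i) = X i
      exact map_X _ _

/-- the tests of an expression are admissible -/
theorem adm_parts {w s D N M : ℕ} (hm : ∀ σ : Fin n → ℂ, (∀ i, σ i ≠ 0) →
      ∀ a b : Expr n, Good w s D a → Good w s D b → Regular σ a → Regular σ b →
      ∀ γ : MvPolynomial (Fin 2) ℂ, aeval ![a.value, b.value] γ ≠ 0 →
      sext (aeval ![a.value, b.value] γ) ∉ (rVan (sbase σ N)).I M ∅) (E : Expr n)
    (hE : Good w s D E) : ∀ {L : List (MvPolynomial (Fin n) ℂ)}, AdmH N M L →
      AdmH N M (L ++ E.partials) := by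
  induction E with
  | leaf g => exact fun {L} h => by rwa [Expr.partials, List.append_nil]
  | gate γ a b iha ihb =>
    intro L h
    have ha : Good w s D a := ⟨hE.1.1, fun i => (Nat.le_add_right _ _).trans (hE.2 i)⟩
    have hb : Good w s D b := ⟨hE.1.2, fun i => (Nat.le_add_left _ _).trans (hE.2 i)⟩
    have h2 := ihb hb (iha ha h)
    have hsa : ∀ x ∈ a.partials, x ∈ L ++ a.partials ++ b.partials := fun x hx =>
      List.mem_append.2 (Or.inl (List.mem_append.2 (Or.inr hx)))
    have hsb : ∀ x ∈ b.partials, x ∈ L ++ a.partials ++ b.partials :=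
      fun x hx => List.mem_append.2 (Or.inr hx)
    have h3 := AdmH.snoc (g := aeval ![a.value, b.value] (pderiv 0 γ)) h2
      fun σ hσ hL h0 => hm σ hσ a b ha hb (fun g hg => hL g (hsa g hg))
        (fun g hg => hL g (hsb g hg)) _ h0
    have h4 := AdmH.snoc (g := aeval ![a.value, b.value] (pderiv 1 γ)) h3
      fun σ hσ hL h0 => hm σ hσ a b ha hb
        (fun g hg => hL g (List.mem_append.2 (Or.inl (hsa g hg))))
        (fun g hg => hL g (List.mem_append.2 (Or.inl (hsb g hg)))) _ h0
    have h5 : L ++ (Expr.gate γ a b).partials = L ++ a.partials ++ b.partials ++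
        [aeval ![a.value, b.value] (pderiv 0 γ)] ++ [aeval ![a.value, b.value] (pderiv 1 γ)] := by
      simp only [Expr.partials, List.append_assoc, List.cons_append, List.nil_append]
    rw [h5]
    exact h4

theorem adm_tests {w s D N M : ℕ} (hm : ∀ σ : Fin n → ℂ, (∀ i, σ i ≠ 0) →
      ∀ a b : Expr n, Good w s D a → Good w s D b → Regular σ a → Regular σ b →
      ∀ γ : MvPolynomial (Fin 2) ℂ, aeval ![a.value, b.value] γ ≠ 0 →
      sext (aeval ![a.value, b.value] γ) ∉ (rVan (sbase σ N)).I M ∅) (l : List (Expr n))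
    (hl : ∀ E ∈ l, Good w s D E) : AdmH N M (tests l) := by
  have key : ∀ {L : List (MvPolynomial (Fin n) ℂ)}, AdmH N M L →
      AdmH N M (L ++ l.flatMap Expr.partials) := by
    induction l with
    | nil => exact fun {L} h => by rwa [List.flatMap_nil, List.append_nil]
    | cons T l ih =>
      intro L h
      rw [List.flatMap_cons, ← List.append_assoc]
      exact ih (fun T' hT' => hl T' (List.mem_cons_of_mem _ hT'))
        (adm_parts hm T (hl T List.mem_cons_self) h)
  exact key (L := []) AdmH.nil

/-- the tests of pairs -/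
theorem pair_hit (w D : ℕ) : ∃ A m : ℕ, ∀ n s N : ℕ, (s + 3) ^ A ≤ N → ∀ σ : Fin n → ℂ,
    (∀ i, σ i ≠ 0) → ∀ a b : Expr n, Good w s D a → Good w s D b → Regular σ a → Regular σ b →
    ∀ γ : MvPolynomial (Fin 2) ℂ, aeval ![a.value, b.value] γ ≠ 0 →
    sext (aeval ![a.value, b.value] γ) ∉ (rVan (sbase σ N)).I m ∅ := by
  obtain ⟨A, m, hm⟩ := expr_hit w D 2
  refine ⟨A, m, fun n s N hN σ hσ a b ha hb hra hrb γ h0 => ?_⟩
  refine hm n s N hN σ hσ ![a, b] (fun i => ?_) _ ?_ fun h => h0 (ext_inj (by rw [h, map_zero]))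
  · fin_cases i
    exacts [⟨ha, hra⟩, ⟨hb, hrb⟩]
  · rw [ext_gate, Algebra.adjoin_range_eq_range_aeval]
    refine ⟨map (algebraMap ℂ (RatFunc ℂ)) γ, ?_⟩
    show aeval _ _ = aeval _ _
    congr 2
    funext i
    fin_cases i <;> rfl

/-- the class is hit at every origin at which the tests do not vanish -/
theorem net_run (w D κ r : ℕ) : ∃ A m : ℕ, ∀ n s N : ℕ, (s + 3) ^ A ≤ N →
    ∀ l : List (Expr n), (∀ E ∈ l, E.Leaves (Prog w s D) ∧ ∀ x, E.reads x ≤ w) →
    ∀ σ : Fin n → ℂ, (∀ i, σ i ≠ 0) → (∀ x ∈ tests l, x ≠ 0 → eval σ x ≠ 0) →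
    ∀ f, Net (ThinSum l w κ r) w ∅ f → f ≠ 0 → sext f ∉ (rVan (sbase σ N)).I m ∅ := by
  obtain ⟨A, m, hm⟩ := gd_hit w D (2 ^ r * κ)
  refine ⟨A, m + r + 2 * w + w + 1, fun n s N hN l hl σ hσ hreg f hf h0 => ?_⟩
  refine net_hit (m := m + r + 2 * w) ?_ hf h0
  rintro _ ⟨R, g, hg, hth, rfl⟩
  have h1 := thin_hit (β := sbase σ N) (m := m) (w := w) (Gd := Gd w s D σ)
    (fun g hg x => gd_sbt hg x) r (κ := κ)
    (fun I J c g hJ hg => hm n s N hN σ hσ I J c g hJ hg) (Fin R) Finset.univ (fun _ => 1) g
    (fun i => (g i).vars) (fun i _ => ⟨?_, Finset.Subset.refl _⟩) hth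
  · simpa only [C_1, one_mul] using h1
  · obtain ⟨E, P, hE, hgE⟩ := hg i
    exact ⟨E, P, fun j => ⟨(hl _ (hE j)).1, (hl _ (hE j)).2, fun x hx => hreg x
      (List.mem_flatMap.2 ⟨_, hE j, hx⟩)⟩, hgE⟩

section count

theorem size_pos (E : Expr n) : 1 ≤ E.size := by
  induction E with
  | leaf g => exact le_rfl
  | gate γ a b iha ihb => rw [Expr.size]; omega

theorem partials_length (E : Expr n) : E.partials.length + 2 = 2 * E.size := by
  induction E with
  | leaf g => rfl
  | gate γ a b iha ihb =>
    simp only [Expr.partials, Expr.size, List.length_append, List.length_cons,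
      List.length_nil]
    omega

theorem gate_degree (a b : MvPolynomial (Fin n) ℂ) (γ : MvPolynomial (Fin 2) ℂ) {i j d : ℕ}
    (ha : a.totalDegree ≤ i) (hb : b.totalDegree ≤ j)
    (h : ∀ e ∈ γ.support, e 0 * i + e 1 * j ≤ d) : (aeval ![a, b] γ).totalDegree ≤ d := by
  rw [γ.as_sum, map_sum]
  refine (totalDegree_finsetSum _ _).trans (Finset.sup_le fun e he => ?_)
  rw [aeval_monomial, Finsupp.prod_fintype _ _ (fun _ => pow_zero _), Fin.prod_univ_two]
  refine (totalDegree_mul _ _).trans ?_
  have h1 : (algebraMap ℂ (MvPolynomial (Fin n) ℂ) (coeff e γ)).totalDegree = 0 :=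
    totalDegree_C _
  rw [h1, zero_add]
  refine (totalDegree_mul _ _).trans (le_trans (Nat.add_le_add ?_ ?_) (h e he))
  · exact (totalDegree_pow _ _).trans (Nat.mul_le_mul_left _ ha)
  · exact (totalDegree_pow _ _).trans (Nat.mul_le_mul_left _ hb)

theorem value_degree (E : Expr n) : E.value.totalDegree ≤ E.degree := by
  induction E with
  | leaf g => exact le_rfl
  | gate γ a b iha ihb =>
    refine gate_degree _ _ _ iha ihb fun e he => ?_
    exact (Finset.le_sup (f := fun e => e 0 * a.degree + e 1 * b.degree) he).trans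
      (le_max_right _ _)

theorem partials_degree (E : Expr n) : ∀ g ∈ E.partials, g.totalDegree ≤ E.degree := by
  classical
  induction E with
  | leaf g => exact fun g hg => absurd hg List.not_mem_nil
  | gate γ a b iha ihb =>
    intro g hg
    have key : ∀ i : Fin 2, (aeval ![a.value, b.value] (pderiv i γ)).totalDegree ≤
        (Expr.gate γ a b).degree := by
      intro i
      refine gate_degree _ _ _ (value_degree a) (value_degree b) fun e he => ?_
      have h1 : e + Finsupp.single i 1 ∈ γ.support := by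
        rw [mem_support_iff] at he ⊢
        intro hc
        apply he
        rw [coeff_pderiv, hc, zero_mul]
      have h2 := (Finset.le_sup (f := fun e : Fin 2 →₀ ℕ => e 0 * a.degree + e 1 * b.degree)
        h1).trans (le_max_right (max a.degree b.degree) _)
      refine le_trans ?_ h2
      simp only [Finsupp.add_apply]
      exact Nat.add_le_add (Nat.mul_le_mul_right _ (Nat.le_add_right _ _))
        (Nat.mul_le_mul_right _ (Nat.le_add_right _ _))
    simp only [Expr.partials, List.mem_append, List.mem_cons, List.not_mem_nil,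
      or_false] at hg
    rcases hg with (hg | hg) | (rfl | rfl)
    · exact (iha g hg).trans ((le_max_left _ _).trans (le_max_left _ _))
    · exact (ihb g hg).trans ((le_max_right _ _).trans (le_max_left _ _))
    · exact key 0
    · exact key 1

theorem tests_count (l : List (Expr n)) (S δ : ℕ) (h : ∀ E ∈ l, E.size ≤ S ∧ E.degree ≤ δ) :
    (tests l).length ≤ 2 * S * l.length ∧
      ((tests l).map totalDegree).sum ≤ 2 * S * l.length * δ := by
  have h1 : (tests l).length ≤ 2 * S * l.length := by
    refine (FormulasOverSparse.flatMap_length_le l _ (2 * S) fun E hE => ?_).trans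
      (le_of_eq (by ring))
    have h2 := partials_length E
    have h3 := (h E hE).1
    omega
  refine ⟨h1, ?_⟩
  have h2 : ∀ d ∈ (tests l).map totalDegree, d ≤ δ := by
    intro d hd
    obtain ⟨g, hg, rfl⟩ := List.mem_map.1 hd
    obtain ⟨E, hE, hg⟩ := List.mem_flatMap.1 hg
    exact (partials_degree E g hg).trans (h E hE).2
  have h3 := List.sum_le_card_nsmul _ _ h2
  rw [List.length_map, smul_eq_mul] at h3
  exact h3.trans (Nat.mul_le_mul_right _ h1)

end count

/-- sums of expressions -/
theorem thin_sum {w κ r N : ℕ} {l : List (Expr n)} (E : Fin N → Expr n) (Y : Finset (Fin n))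
    (hw : 1 ≤ w) (hY : Y.card ≤ w) (hE : ∀ i, E i ∈ l)
    (h : ∀ S : Finset (Fin n), S.card = r → Disjoint S Y →
      (Finset.univ.filter fun i => S ⊆ (E i).value.vars).card ≤ κ) :
    ThinSum l w κ r (∑ i, (E i).value) := by
  refine ⟨N, fun i => (E i).value, fun i => ⟨fun _ => E i, X ⟨0, hw⟩, fun _ => hE i, ?_⟩, ?_, rfl⟩
  · rw [aeval_X]
  · refine thin_of_sets Y hY r _ _ fun S hS hSY => le_trans (le_of_eq ?_) (h S hS hSY)
    congr!

/-- Let `w, D, κ, r` be fixed. There are `k, m` such that the following holds for every list `l` of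
expressions in `n` variables, with arbitrary gates, over leaves of depth at most `D` (for instance,
for `D = 0`, over polynomials with at most `s` monomials of degree less than `w` in every
variable), where every variable occurs in at most `w` leaves of an expression, and for every `d`
that is at least `n` plus the sum of the degrees of the polynomials in `tests l` (the partial
derivatives of the gates with respect to their arguments). Let `N = (s + 3)^k`. The search `Run`
over the explicit sets `points n m N d` and the list `tests l` always ends in an origin `σ` such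
that every polynomial `f` of degree at most `d` that divides a product of nonzero members of
`Net (ThinSum l w κ r) w ∅` does not vanish at some of the at most `(Nd+1) ((d+1)(nd+1))^m` points
of `points n m N d σ`. The coordinates of `σ` have polynomial length, there are polynomially many
tests, their degrees are at most the formal degrees of the expressions, and `ThinSum l w κ r`
contains every sum of expressions of `l` such that any `r` variables, outside of an exceptional set
of `w` variables, occur together in at most `κ` of them. -/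
theorem result :
    (∀ w D κ r : ℕ, ∃ k m : ℕ, ∀ (n d s : ℕ) (l : List (Expr n)),
      (∀ E ∈ l, E.Leaves (Prog w s D) ∧ ∀ x, E.reads x ≤ w) →
      n + ((tests l).map totalDegree).sum ≤ d →
      (∀ σ, (points n m ((s + 3) ^ k) d σ).card ≤
        ((s + 3) ^ k * d + 1) * ((d + 1) * (n * d + 1)) ^ m) ∧
      (∃ σ K, Run (points n m ((s + 3) ^ k) d) (tests l) σ K) ∧
      ∀ σ K, Run (points n m ((s + 3) ^ k) d) (tests l) σ K →
        (∀ i, |σ i| ≤ (((2 ^ (n * (s + 3) ^ k * d) + m * d * (n * d + n) ^ (n - 1)) ^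
          (tests l).length : ℕ) : ℤ)) ∧
        ∀ (f : MvPolynomial (Fin n) ℂ) (F : Multiset (MvPolynomial (Fin n) ℂ)),
          (∀ g ∈ F, Net (ThinSum l w κ r) w ∅ g ∧ g ≠ 0) → f ∣ F.prod → f.totalDegree ≤ d →
          ∃ p ∈ points n m ((s + 3) ^ k) d σ, eval (fun i => (p i : ℂ)) f ≠ 0) ∧
    (∀ (n S δ : ℕ) (l : List (Expr n)), (∀ E ∈ l, E.size ≤ S ∧ E.degree ≤ δ) →
      (tests l).length ≤ 2 * S * l.length ∧
        ((tests l).map totalDegree).sum ≤ 2 * S * l.length * δ) ∧
    (∀ (n w κ r N : ℕ) (l : List (Expr n)) (E : Fin N → Expr n) (Y : Finset (Fin n)), 1 ≤ w →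
      Y.card ≤ w → (∀ i, E i ∈ l) → (∀ S : Finset (Fin n), S.card = r → Disjoint S Y →
        (Finset.univ.filter fun i => S ⊆ (E i).value.vars).card ≤ κ) →
      ThinSum l w κ r (∑ i, (E i).value)) := by
  refine ⟨?_, fun n S δ l h => tests_count l S δ h, fun n w κ r N l E Y hw hY hE h =>
    thin_sum E Y hw hY hE h⟩
  intro w D κ r
  obtain ⟨A₀, m₀, h₀⟩ := pair_hit w D
  obtain ⟨A₁, m₁, h₁⟩ := net_run w D κ r
  refine ⟨A₀ + A₁, m₀ + m₁, fun n d s l hl hD => ⟨fun σ =>
    FormulasOverSparse.points_card _ _ d σ, FormulasOverSparse.exists_run _ _,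
    fun σ K hrun => ⟨fun i => hrun.bound i, ?_⟩⟩⟩
  intro f F hF hdvd hd
  have hN0 : (s + 3) ^ A₀ ≤ (s + 3) ^ (A₀ + A₁) := Nat.pow_le_pow_right (by omega) (by omega)
  have hN1 : (s + 3) ^ A₁ ≤ (s + 3) ^ (A₀ + A₁) := Nat.pow_le_pow_right (by omega) (by omega)
  refine run_hit (adm_tests (w := w) (s := s) (D := D) ?_ l fun E hE =>
    ⟨Leaves.mono (fun _ h => Or.inl h) (hl E hE).1, (hl E hE).2⟩) hD
    (Cls := Net (ThinSum l w κ r) w ∅) ?_ hrun hF hdvd hd
  · intro σ hσ a b ha hb hra hrb γ h0 hc
    exact h₀ n s _ hN0 σ hσ a b ha hb hra hrb γ h0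
      ((rVan _).mono (Nat.le_add_right m₀ m₁) ∅ hc)
  · intro σ hσ hreg f hf h0 hc
    exact h₁ n s _ hN1 l hl σ hσ hreg f hf h0 ((rVan _).mono (Nat.le_add_left m₁ m₀) ∅ hc)

end Pool.Agent.Results.MP_e2be99_lc.SharedSubexpressions
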