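import Pool.Agent.W945.Bd.Clo
import Pool.Agent.W945.Bd.Ind
import Pool.Agent.H531R2.D4.TI
import Pool.Agent.Results.MP_e2be99_lc.SubexponentialTest
import Pool.Agent.Results.MP_e2be99_lc.TensorNetworks

/-!
# Explicit hitting sets for the closures of classes of small Kalorkoti measure

A polynomial of low algebraic complexity has a small Kalorkoti measure: written as a polynomial in
the variables of a small block, its coefficients have a small transcendence degree. The explicit
point sets of `TensorNetworks.points` hit every nonzero polynomial in the closure of a class of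
polynomials of small measure. This gives deterministic black-box identity tests of subexponential
size for the closures (border classes) of branching programs, skew circuits and symbolic
determinants with `s` occurrences of variables, of circuits with few general products, and of
formulas and tensor networks of bounded bond dimension: for everything that can be approximated
by polynomials computed by such programs, over the field or over a larger field such as `F(ε)`.
-/

set_option autoImplicit false

namespace Pool.Agent.Results.MP_e2be99_lc.ZBorderTest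

open MvPolynomial Filter Topology
open Pool.Agent.W945.Bd Pool.Agent.H964R5
open SubexponentialTest (Circuit)
open TensorNetworks (points block point)

/-- Let `f` be written as a polynomial in the variables of `V` whose coefficients are polynomials
in the other variables (`split V f`). Any `q + 1` coefficients are algebraically dependent. -/
def Measure {F : Type} [Field F] {n : ℕ} (V : Finset (Fin n)) (q : ℕ)
    (f : MvPolynomial (Fin n) F) : Prop :=
  ∀ m : Fin (q + 1) → (Fin n →₀ ℕ),
    ¬ AlgebraicIndependent F (fun i => coeff (m i) (split V f))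

/-- The class `X` has small measure: every member has nonnegative integer weights of the variables,
of sum at most `s` and positive for the variables which occur, such that the member has measure at
most `q` with respect to every block of variables of weight at most `R`. -/
def Small {n : ℕ} (s R q : ℕ)
    (X : ∀ (K : Type) [Field K], Set (MvPolynomial (Fin n) K)) : Prop :=
  ∀ (K : Type) [Field K] [CharZero K], ∀ f ∈ X K, ∃ w : Fin n → ℕ, ∑ i, w i ≤ s ∧
    (∀ i ∈ f.vars, w i ≠ 0) ∧ ∀ V : Finset (Fin n), ∑ i ∈ V, w i ≤ R → Measure V q f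

/-- The set `points n d t ℓ` contains a point where `f` does not vanish. -/
def Hit {F : Type} [Field F] {n : ℕ} (d t ℓ : ℕ) (f : MvPolynomial (Fin n) F) : Prop :=
  ∃ p ∈ points n d t ℓ, eval (fun i => (p i : F)) f ≠ 0

/-- Polynomials computed at the nodes of circuits with at most `s` occurrences of variables and at
most `h` general products. -/
def Circ (n s h : ℕ) (K : Type) [Field K] : Set (MvPolynomial (Fin n) K) :=
  {f | ∃ (N : ℕ) (G : Circuit K n N) (k : Fin N), G.size ≤ s ∧ G.gen ≤ h ∧ f = G.val k}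

/-- Polynomials in the entries of the vectors computed by networks of bond dimension `k` with layers
in at most `c` variables, of size at most `s` and with at most `h` polynomial gates. -/
def Nets (n k c s h : ℕ) (K : Type) [Field K] : Set (MvPolynomial (Fin n) K) :=
  {f | ∃ (N : Net K n k c) (P : MvPolynomial (Fin k) K), N.size ≤ s ∧ N.gates ≤ h ∧
    f = aeval N.val P}

/-- The closure of a class `X` of polynomials. There are a commutative ring `O`, a polynomial `g`
over `O` and ring homomorphisms `e j` from `O` to fields `K j` of characteristic zero such that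
`g` becomes a member of `X` over every `K j`, and `f` is the image of `g` under a homomorphism `φ`
from `O` to `F` which kills every element killed by all `e j`. -/
def Border {F : Type} [Field F] {n : ℕ}
    (X : ∀ (K : Type) [Field K], Set (MvPolynomial (Fin n) K)) :
    Set (MvPolynomial (Fin n) F) :=
  {f | ∃ (O : Type) (_ : CommRing O) (φ : O →+* F) (J : Type) (K : J → Type)
    (_ : ∀ j, Field (K j)) (_ : ∀ j, CharZero (K j)) (e : ∀ j, O →+* K j)
    (g : MvPolynomial (Fin n) O),
    (∀ x, (∀ j, e j x = 0) → φ x = 0) ∧ (∀ j, map (e j) g ∈ X (K j)) ∧ f = map φ g}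

/-- The Zariski closure of a set `X` of polynomials: every polynomial relation between coefficients
that holds for all members of `X` holds for `f`. -/
def Zariski {F : Type} [Field F] {n : ℕ} (X : Set (MvPolynomial (Fin n) F)) :
    Set (MvPolynomial (Fin n) F) :=
  {f | ∀ Q : MvPolynomial (Fin n →₀ ℕ) F, (∀ g ∈ X, eval (fun m => coeff m g) Q = 0) →
    eval (fun m => coeff m f) Q = 0}

section

variable {F : Type} [Field F] {n : ℕ}

theorem deg_le_iff {K : Type*} [CommSemiring K] {f : MvPolynomial (Fin n) K} {D : ℕ} :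
    f.totalDegree ≤ D ↔ ∀ m ∈ f.support, m.degree ≤ D := by
  rw [totalDegree, Finset.sup_le_iff]
  rfl

theorem hit_of_seeds {s r ℓ d : ℕ} {f : MvPolynomial (Fin n) F}
    (h : ∃ (H : Finset (Fin n)) (bl : Fin n → Fin (s / r + 1)), H.card ≤ s / r ∧ Monotone bl ∧
      ∃ (v : Fin n → ℕ) (y : Fin ℓ → ℕ) (u : Fin (s / r + 1) → ℕ),
        (∀ i, v i ≤ d) ∧ (∀ k, y k ≤ d) ∧ (∀ c, u c ≤ n * ℓ * d) ∧
        MvPolynomial.eval (fun i => if i ∈ H then (v i : F) else
          ∑ k : Fin ℓ, (y k : F) * (u (bl i) : F) ^ (((i : ℕ) + 1) * (k : ℕ))) f ≠ 0) :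
    Hit d (s / r) ℓ f := by
  classical
  by_contra hall
  unfold Hit at hall
  push Not at hall
  obtain ⟨H, bl, hH, hbl, v, y, u, hv, hy, hu, hev⟩ := h
  obtain ⟨β, hβ⟩ := Pool.Agent.H530R2.exists_breaks bl hbl
  obtain ⟨pos, hpos1, hpos2⟩ := Pool.Agent.H530R2.exists_slots H hH
  apply hev
  have hcomm : n * ℓ * d = ℓ * n * d := by ring
  have hmem : point pos (fun l => if h : (pos l : ℕ) < n then v ⟨pos l, h⟩ else 0) β y u ∈
      points n d (s / r) ℓ := by
    unfold points
    rw [Finset.mem_image]
    refine ⟨⟨pos, fun l => ⟨if h : (pos l : ℕ) < n then v ⟨pos l, h⟩ else 0, ?_⟩, β,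
      fun k => ⟨y k, Nat.lt_succ_of_le (hy k)⟩,
      fun c => ⟨u c, Nat.lt_succ_of_le (by rw [← hcomm]; exact hu c)⟩⟩, Finset.mem_univ _, rfl⟩
    split_ifs
    · exact Nat.lt_succ_of_le (hv _)
    · omega
  rw [← hall _ hmem]
  congr 2
  funext i
  have hblk : block β i = bl i := Fin.ext (hβ i)
  simp only [point]
  by_cases hi : i ∈ H
  · obtain ⟨l, hl⟩ := (hpos1 i).2 hi
    rw [if_pos hi, if_pos ⟨l, hl⟩, Finset.sum_eq_single l]
    · rw [if_pos hl]
      have h1 : (pos l : ℕ) < n := by rw [hl]; exact i.isLt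
      have h2 : (⟨pos l, h1⟩ : Fin n) = i := Fin.ext hl
      rw [dif_pos h1, h2]
      simp
    · intro l' _ hne'
      rw [if_neg]
      intro h
      exact hne' (hpos2 i l' l h hl)
    · simp
  · rw [if_neg hi, if_neg (fun h => hi ((hpos1 i).1 h)), hblk]
    push_cast
    rfl

/-- measure and minors -/
theorem low_iff [CharZero F] {w : Fin n → ℕ} {R q : ℕ} {f : MvPolynomial (Fin n) F} :
    Low w R q f ↔ (∀ i ∈ f.vars, w i ≠ 0) ∧
      ∀ V : Finset (Fin n), ∑ i ∈ V, w i ≤ R → Measure V q f := by
  constructor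
  · intro h
    refine ⟨fun i hi => ?_, fun V hV m hind => ?_⟩
    · have h1 := h.supported
      rw [mem_supported] at h1
      exact h1 hi
    · obtain ⟨l, hl⟩ := H531R2.D4.det_of_algIndK _ hind
      exact hl (h.jac V hV l m)
  · rintro ⟨h1, h2⟩
    refine ⟨?_, fun V hV l m => jac_eq_zero_of_dep m (h2 V hV m) l⟩
    intro m hcm i hwi
    by_contra hmi
    exact h1 i ((mem_vars_iff_mem_support _).2 ⟨m, mem_support_iff.2 hcm, by
      rwa [Finsupp.mem_support_iff]⟩) hwi

/-- circuits are low -/
theorem circ_low {s h R : ℕ} {f : MvPolynomial (Fin n) F} [CharZero F] (hf : f ∈ Circ n s h F) :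
    (∃ w : Fin n → ℕ, ∑ i, w i ≤ s ∧
      Low w R ((R + 2 * h + 1) * (R + h + 1) + 2 * R ^ 2) f) ∧ f.totalDegree ≤ s * 2 ^ h := by
  classical
  obtain ⟨N, G, k0, hG1, hG2, rfl⟩ := hf
  choose w hw1 hw2 using SubexponentialTest.node_row G
  set z : ℕ → MvPolynomial (Fin n) F := fun k => if hk : k < N then G.val ⟨k, hk⟩ else 0 with hz
  set w' : ℕ → Fin n → ℕ := fun k => if hk : k < N then w ⟨k, hk⟩ else 0 with hw'
  set K : Finset ℕ := Finset.image (fun k : Fin N => (k : ℕ))
    (Finset.univ.filter (fun k : Fin N => G.general k = 1)) with hK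
  have hzk : ∀ k : Fin N, z k = G.val k := by
    intro k
    simp only [hz]
    rw [dif_pos k.isLt]
  have hwk : ∀ k : Fin N, w' k = w k := by
    intro k
    simp only [hw']
    rw [dif_pos k.isLt]
  have hrow : ∀ k < N, Pool.Agent.H532R2.DT.Row z w' K k := by
    intro k hk
    rcases hw2 ⟨k, hk⟩ with h1 | ⟨a, b, ha, hb, hab⟩ | ⟨a, f, ha, hf, haf⟩ |
      ⟨a, b, ha, hb, hg, hab⟩
    · refine Pool.Agent.H532R2.DT.Row.leaf ?_
      rw [hwk ⟨k, hk⟩, hzk ⟨k, hk⟩]
      exact h1
    · exact Pool.Agent.H532R2.DT.Row.add a b ha hb (by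
        rw [hzk ⟨k, hk⟩, hzk a, hzk b]; exact hab)
    · exact Pool.Agent.H532R2.DT.Row.skew a f ha (by rw [hwk ⟨k, hk⟩]; exact hf) (by
        rw [hzk ⟨k, hk⟩, hzk a]; exact haf)
    · exact Pool.Agent.H532R2.DT.Row.prod a b ha hb
        (Finset.mem_image.2 ⟨⟨k, hk⟩, Finset.mem_filter.2 ⟨Finset.mem_univ _, hg⟩, rfl⟩) (by
        rw [hzk ⟨k, hk⟩, hzk a, hzk b]; exact hab)
  have hsum : ∑ k ∈ Finset.range N, ∑ i, w' k i ≤ s := by
    refine le_trans (le_of_eq ?_) hG1
    rw [Finset.sum_range]
    unfold Circuit.size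
    apply Finset.sum_congr rfl
    intro k _
    rw [hwk k]
    exact hw1 k
  have hKc : K.card ≤ h := by
    refine Finset.card_image_le.trans (le_trans ?_ hG2)
    rw [Finset.card_filter]
    unfold Circuit.gen
    apply Finset.sum_le_sum
    intro k _
    split_ifs with h1
    · rw [h1]
    · exact Nat.zero_le _
  rw [← hzk]
  refine ⟨⟨fun i => ∑ k ∈ Finset.range N, w' k i, ?_, ?_⟩, ?_⟩
  · rw [Finset.sum_comm]
    exact hsum
  · refine Low.of_hasPar (Pool.Agent.H532R2.DT.circ_supp z w' K N hrow k0 k0.isLt) ?_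
    intro V hV sub ρ hρ1 hρ2
    refine Pool.Agent.H532R2.DT.circ_par z w' K N hrow k0 k0.isLt V R h ?_ hKc sub ρ hρ1 hρ2
    rw [Finset.sum_comm]
    exact hV
  · refine (Pool.Agent.H532R2.DT.circ_deg z w' K N hrow k0 k0.isLt).trans ?_
    refine Nat.mul_le_mul ?_ (Nat.pow_le_pow_right (by norm_num) ?_)
    · refine le_trans ?_ hsum
      apply Finset.sum_le_sum_of_subset
      intro x hx
      rw [Finset.mem_range] at hx ⊢
      omega
    · exact (Finset.card_filter_le _ _).trans hKc

/-- networks are low -/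
theorem nets_low {k c s h R : ℕ} {f : MvPolynomial (Fin n) F} [CharZero F]
    (hf : f ∈ Nets n k c s h F) :
    ∃ w : Fin n → ℕ, ∑ i, w i ≤ s ∧ Low w R ((3 * k ^ 2 + c) * (R + h) + k) f := by
  classical
  obtain ⟨N, P, h1, h2, rfl⟩ := hf
  refine ⟨N.occ, N.sum_occ.trans_le h1, Low.of_hasPar ?_ ?_⟩
  · exact aeval_mem _ _ (fun j => N.supp j) P
  · intro V hV s ρ h3 h4
    refine (N.hasPar P R V hV s ρ h3 h4).mono ?_
    gcongr

/-- closures of low classes consist of low polynomials -/
theorem border_low {X : ∀ (K : Type) [Field K], Set (MvPolynomial (Fin n) K)} {s R q : ℕ}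
    (hX : ∀ (K : Type) [Field K] [CharZero K], ∀ f ∈ X K,
      ∃ w : Fin n → ℕ, ∑ i, w i ≤ s ∧ Low w R q f)
    {f : MvPolynomial (Fin n) F} (hf : f ∈ Border X) :
    ∃ w : Fin n → ℕ, ∑ i, w i ≤ s ∧ Low w R q f := by
  obtain ⟨O, _, φ, J, K, _, _, e, g, hker, hmem, rfl⟩ := hf
  choose W hW1 hW2 using fun j => hX (K j) _ (hmem j)
  exact Low.transfer φ e hker g W hW1 hW2

/-- degree bounds hold on closures -/
theorem border_deg {X : ∀ (K : Type) [Field K], Set (MvPolynomial (Fin n) K)} {D : ℕ}
    (hX : ∀ (K : Type) [Field K] [CharZero K], ∀ f ∈ X K, f.totalDegree ≤ D)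
    {f : MvPolynomial (Fin n) F} (hf : f ∈ Border X) : f.totalDegree ≤ D := by
  obtain ⟨O, _, φ, J, K, _, _, e, g, hker, hmem, rfl⟩ := hf
  rw [deg_le_iff]
  intro m hm
  by_contra hlt
  push Not at hlt
  rw [mem_support_iff, coeff_map] at hm
  apply hm
  apply hker
  intro j
  rw [← coeff_map]
  by_contra hne
  have h1 := (deg_le_iff.1 (hX (K j) _ (hmem j))) m (mem_support_iff.2 hne)
  omega

/-- the members of a class of degree at most `D`: the Zariski closure is contained in the closure -/
theorem zariski_border [CharZero F] (X : ∀ (K : Type) [Field K], Set (MvPolynomial (Fin n) K))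
    (D : ℕ) {f : MvPolynomial (Fin n) F}
    (hf : f ∈ Zariski {g ∈ X F | g.totalDegree ≤ D}) : f ∈ Border X := by
  classical
  have hfin : {m : Fin n →₀ ℕ | m.degree ≤ D}.Finite := by
    refine Set.Finite.subset (Set.finite_Iic (Finsupp.equivFunOnFinite.symm fun _ => D)) ?_
    intro m hm i
    exact (Finsupp.le_degree i m).trans hm
  set E : Finset (Fin n →₀ ℕ) := hfin.toFinset with hE
  have hmemE : ∀ m, m ∈ E ↔ m.degree ≤ D := fun m => by rw [hE, Set.Finite.mem_toFinset]; rfl
  have hfD : ∀ m, ¬ m.degree ≤ D → coeff m f = 0 := by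
    intro m hm
    have h1 := hf (MvPolynomial.X m) (by
      intro g hg
      rw [eval_X]
      by_contra hne
      have h2 := (deg_le_iff.1 hg.2) m (mem_support_iff.2 hne)
      exact hm h2)
    rwa [eval_X] at h1
  have huniv : ∀ (x : MvPolynomial (Fin n) F), (∀ m, ¬ m.degree ≤ D → coeff m x = 0) →
      map (eval (fun m => coeff m x)) (∑ m ∈ E, monomial m (MvPolynomial.X m : MvPolynomial (Fin n →₀ ℕ) F)) =
        x := by
    intro x hx
    rw [map_sum]
    ext m
    rw [coeff_sum]
    simp only [map_monomial, eval_X, coeff_monomial]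
    rw [Finset.sum_ite_eq']
    split_ifs with h1
    · rfl
    · rw [hx m (fun h2 => h1 ((hmemE m).2 h2))]
  refine ⟨MvPolynomial (Fin n →₀ ℕ) F, inferInstance, eval (fun m => coeff m f),
    {g : MvPolynomial (Fin n) F // g ∈ X F ∧ g.totalDegree ≤ D}, fun _ => F, inferInstance,
    inferInstance, fun g => eval (fun m => coeff m (g : MvPolynomial (Fin n) F)),
    ∑ m ∈ E, monomial m (MvPolynomial.X m), ?_, ?_, ?_⟩
  · intro Q hQ
    exact hf Q fun g hg => hQ ⟨g, hg⟩
  · intro g
    rw [huniv g]
    · exact g.2.1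
    · intro m hm
      by_contra hne
      exact hm ((deg_le_iff.1 g.2.2) m (mem_support_iff.2 hne))
  · exact (huniv f hfD).symm

/-- limits are in the Zariski closure -/
theorem limit_zariski [TopologicalSpace F] [IsTopologicalRing F] [T2Space F]
    (X : Set (MvPolynomial (Fin n) F)) {ι : Type*} (l : Filter ι) [l.NeBot]
    (g : ι → MvPolynomial (Fin n) F) (hg : ∀ᶠ j in l, g j ∈ X) {f : MvPolynomial (Fin n) F}
    (hf : ∀ m, Tendsto (fun j => coeff m (g j)) l (𝓝 (coeff m f))) : f ∈ Zariski X := by
  intro Q hQ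
  have h1 : Tendsto (fun j => eval (fun m => coeff m (g j)) Q) l
      (𝓝 (eval (fun m => coeff m f) Q)) := by
    have h2 : Tendsto (fun j => fun m => coeff m (g j)) l (𝓝 fun m => coeff m f) :=
      tendsto_pi_nhds.2 hf
    exact (MvPolynomial.continuous_eval Q).continuousAt.tendsto.comp h2
  refine tendsto_nhds_unique_of_eventuallyEq h1 tendsto_const_nhds ?_
  filter_upwards [hg] with j hj
  exact hQ _ hj

end

/-- **Explicit hitting sets for closures of classes of small measure.**

1. The set `points n d t ℓ` of integer points has at most `(ℓ (n+1) (d+1)) ^ (ℓ + 4 t + 1)`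
   members, with coordinates of polynomial bit length.
2. Let the members of the class `X` have measure at most `q` with respect to blocks of weight at
   most `2 (r - 1)`, with weights of sum at most `s`. Then for `ℓ ≥ q + 2 (r - 1)` the set
   `points n d (s / r) ℓ` hits every factor of degree at most `d` of every nonzero polynomial
   in the closure of `X`.
3. This applies to the class `Circ n s h` of polynomials computed by circuits with at most `s`
   occurrences of variables and at most `h` general products, with `ℓ = 12 (r + h)^2`; the members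
   of its closure have degree at most `s 2^h`. For `h = 0` (skew circuits, branching programs,
   symbolic determinants) and `r = ⌈s^(1/3)⌉` these are `2^(O(s^(2/3) log s))` points. It also
   applies to the class `Nets n k c s h` of networks of bond dimension `k`, with
   `ℓ = 2 (3 k² + c + 1) (r + h)`; for bounded `k`, `c`, `h` and `r = ⌈√s⌉` these are
   `2^(O(√s log(s n d)))` points.
4. The closure contains the Zariski closure of the members of degree at most `D`, for every `D`, all
   coefficientwise limits of members of bounded degree over a topological field, and the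
   reductions `map φ g` of all polynomials `g` over a ring `O`, for instance the local ring of
   `F(ε)` at `ε = 0`, which become members of `X` over a field `K ⊇ O`, for instance `F(ε)`. -/
theorem result (n : ℕ) :
    (∀ d t ℓ : ℕ, 1 ≤ ℓ →
      (points n d t ℓ).card ≤ (ℓ * (n + 1) * (d + 1)) ^ (ℓ + 4 * t + 1) ∧
      ∀ p ∈ points n d t ℓ, ∀ i, |p i| ≤ (((ℓ + t) * d * (ℓ * n * d + 1) ^ (ℓ * n) : ℕ) : ℤ)) ∧
    (∀ (X : ∀ (K : Type) [Field K], Set (MvPolynomial (Fin n) K)) (s r q ℓ d : ℕ), 1 ≤ r →
      Small s (2 * (r - 1)) q X → q + 2 * (r - 1) ≤ ℓ →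
      ∀ (F : Type) [Field F] [CharZero F], ∀ g ∈ Border (F := F) X, g ≠ 0 →
        ∀ f, f ∣ g → f.totalDegree ≤ d → Hit d (s / r) ℓ f) ∧
    (∀ s h r : ℕ, 1 ≤ r →
      (∃ q, Small s (2 * (r - 1)) q (Circ n s h) ∧ q + 2 * (r - 1) ≤ 12 * (r + h) ^ 2) ∧
      (∀ k c : ℕ, ∃ q, Small s (2 * (r - 1)) q (Nets n k c s h) ∧
        q + 2 * (r - 1) ≤ 2 * (3 * k ^ 2 + c + 1) * (r + h)) ∧
      ∀ (F : Type) [Field F] [CharZero F], ∀ g ∈ Border (F := F) (Circ n s h),
        g.totalDegree ≤ s * 2 ^ h) ∧
    ∀ (X : ∀ (K : Type) [Field K], Set (MvPolynomial (Fin n) K)) (F : Type) [Field F]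
      [CharZero F],
      (∀ D : ℕ, Zariski {g ∈ X F | g.totalDegree ≤ D} ⊆ Border X) ∧
      (∀ (D : ℕ) [TopologicalSpace F] [IsTopologicalRing F] [T2Space F]
        (g : ℕ → MvPolynomial (Fin n) F) (f : MvPolynomial (Fin n) F), (∀ j, g j ∈ X F) →
        (∀ j, (g j).totalDegree ≤ D) →
        (∀ m, Tendsto (fun j => coeff m (g j)) atTop (𝓝 (coeff m f))) → f ∈ Border X) ∧
      (∀ (O K : Type) [CommRing O] [Field K] [CharZero K] (e : O →+* K) (φ : O →+* F)
        (g : MvPolynomial (Fin n) O), Function.Injective e → map e g ∈ X K →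
        map φ g ∈ Border X) := by
  classical
  refine ⟨fun d t ℓ hℓ => ⟨TensorNetworks.points_card n d t ℓ hℓ,
    TensorNetworks.points_bound n d t ℓ⟩, ?_, ?_, ?_⟩
  · intro X s r q ℓ d hr hX hℓ F _ _ g hgB hg f hfg hd
    obtain ⟨w, hw1, hw2⟩ := border_low (R := 2 * (r - 1)) (q := q) (s := s)
      (fun K _ _ x hx => by
        obtain ⟨w, h1, h2⟩ := hX K x hx
        exact ⟨w, h1, low_iff.2 h2⟩) hgB
    exact hit_of_seeds (Low.seeds hw2 hw1 hr hfg hg _ d hℓ hd)
  · intro s h r hr
    obtain ⟨q, rfl⟩ := Nat.exists_eq_add_of_le' hr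
    simp only [Nat.add_sub_cancel]
    refine ⟨⟨(2 * q + 2 * h + 1) * (2 * q + h + 1) + 2 * (2 * q) ^ 2, fun K _ _ x hx => ?_, ?_⟩,
      fun k c => ⟨(3 * k ^ 2 + c) * (2 * q + h) + k, fun K _ _ x hx => ?_, ?_⟩, ?_⟩
    · obtain ⟨w, h1, h2⟩ := (circ_low (R := 2 * q) hx).1
      exact ⟨w, h1, low_iff.1 h2⟩
    · nlinarith [Nat.zero_le q, Nat.zero_le h, Nat.zero_le (q * h)]
    · obtain ⟨w, h1, h2⟩ := nets_low (R := 2 * q) hx
      exact ⟨w, h1, low_iff.1 h2⟩
    · have hkk : k ≤ k ^ 2 := Nat.le_self_pow (by norm_num) k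
      nlinarith [Nat.zero_le q, Nat.zero_le h, Nat.zero_le (q * h), Nat.zero_le (k ^ 2 * h),
        Nat.zero_le (c * h), Nat.zero_le (k ^ 2 * q), Nat.zero_le (c * q)]
    · intro F _ _ g hgB
      exact border_deg (fun K _ _ x hx => (circ_low (R := 0) hx).2) hgB
  · intro X F _ _
    refine ⟨fun D f hf => zariski_border X D hf, ?_, ?_⟩
    · intro D _ _ _ g f h1 h2 h3
      have h4 : ∀ j, g j ∈ {g ∈ X F | g.totalDegree ≤ D} := fun j => ⟨h1 j, h2 j⟩
      exact zariski_border X D (limit_zariski _ atTop g (Filter.Eventually.of_forall h4) h3)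
    · intro O K _ _ _ e φ g he hg
      refine ⟨O, inferInstance, φ, PUnit, fun _ => K, fun _ => inferInstance,
        fun _ => inferInstance, fun _ => e, g, ?_, fun _ => hg, rfl⟩
      intro x hx
      have h1 : x = 0 := he (by rw [hx PUnit.unit, map_zero])
      rw [h1, map_zero]

end Pool.Agent.Results.MP_e2be99_lc.ZBorderTest
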